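import Pool.Agent.N490.HG.Asm2Pure

/-!
# From inequalities for the pressure to the equation of state (adapted from `N490.HG.asm2_aux`)
-/

set_option autoImplicit false

namespace Run7.h933.EOS

open Pool.Agent.N490.HG

theorem asm_gen {ε X : ℝ} (hε : 0 < ε) (_hX0 : 0 < X) (hX1 : X ≤ 1) (hεX' : ε ≤ X / 2)
    (hε1 : ε ≤ 1 / 4) {n : ℕ} (a2 : 2 ≤ n) {κ : ℝ} (hκ0 : 0 ≤ κ)
    (hκ : κ * Real.exp 1 * Real.exp ((X - ε / 2) * n) ≤ (ε / 4) ^ 2 / 8)
    {y p : ℝ → ℝ} (H1 : ∀ w, 0 < w → 0 < y w) (H2 : ∀ w, 0 < w → 0 ≤ p w)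
    (H3 : ∀ w, 0 < w → w * Real.exp w ≤ Real.exp ((X - ε) * n) →
      (1 - (ε / 4) ^ 2 / 2) * w ≤ y w)
    (H4 : ∀ w, 0 < w → p w ≤ w + w ^ 2 / 2 + κ * (w * Real.exp w))
    (H5 : ∀ a b, 0 < a → a ≤ b → (Real.log (b / a) + (b - a)) * y a ≤ p b - p a)
    {w : ℝ} (hw : 0 < w) (hwX : w * Real.exp w ≤ Real.exp ((X - ε) * n)) :
    |y w - w| ≤ ε * w ∧ |p w - (w + w ^ 2 / 2)| ≤ ε * (w + w ^ 2 / 2) := by
  set τ : ℝ := ε / 4 with hτ
  have hτ0 : 0 < τ := by positivity
  have hτ1 : τ ≤ 1 / 16 := by linarith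
  set δ : ℝ := τ ^ 2 / 8 with hδ
  have hδ0 : 0 < δ := by positivity
  have hn2 : (2 : ℝ) ≤ n := by exact_mod_cast a2
  have hn0 : (0 : ℝ) < n := by linarith
  -- upper bound of the pressure
  have hU : ∀ v, 0 < v → v * Real.exp v ≤ Real.exp ((X - ε / 2) * n) → p v ≤ (1 + δ) * (v + v ^ 2 / 2) := by
    intro v hv hvX
    have h1 := H4 v hv
    have h2 : κ * Real.exp v ≤ δ := by
      refine le_trans ?_ hκ
      rw [mul_assoc]
      refine mul_le_mul_of_nonneg_left ?_ hκ0
      have hone : 1 ≤ Real.exp ((X - ε / 2) * n) := Real.one_le_exp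
        (mul_nonneg (by linarith) hn0.le)
      rcases le_or_gt v 1 with h | h
      · calc Real.exp v ≤ Real.exp 1 := Real.exp_le_exp.2 h
          _ ≤ Real.exp 1 * Real.exp ((X - ε / 2) * n) :=
              le_mul_of_one_le_right (Real.exp_pos _).le hone
      · have h3 : Real.exp v ≤ Real.exp ((X - ε / 2) * n) := by
          refine le_trans ?_ hvX
          exact le_mul_of_one_le_left (Real.exp_pos v).le h.le
        refine h3.trans ?_
        exact le_mul_of_one_le_left (Real.exp_pos _).le (Real.one_le_exp zero_le_one)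
    have h3 : κ * (v * Real.exp v) ≤ δ * v := by
      calc κ * (v * Real.exp v) = (κ * Real.exp v) * v := by ring
        _ ≤ δ * v := mul_le_mul_of_nonneg_right h2 hv.le
    have h4 : 0 ≤ δ * (v ^ 2 / 2) := by positivity
    linarith
  -- lower bound of the pressure
  have hL : (1 - τ ^ 2 / 2) * (w + w ^ 2 / 2) ≤ p w := by
    refine lower (W := w) (by positivity) (by nlinarith) H2 (fun v hv hvw => ?_)
      H5 hw le_rfl
    refine H3 v hv ?_
    calc v * Real.exp v ≤ w * Real.exp w := by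
          have : Real.exp v ≤ Real.exp w := Real.exp_le_exp.2 hvw
          exact mul_le_mul hvw this (Real.exp_pos v).le hw.le
      _ ≤ Real.exp ((X - ε) * n) := hwX
  have hUw : p w ≤ (1 + δ) * (w + w ^ 2 / 2) := by
    refine hU w hw (hwX.trans ?_)
    rw [Real.exp_le_exp]
    exact mul_le_mul_of_nonneg_right (by linarith) hn0.le
  -- the lower bound of the density
  have hyL : (1 - τ ^ 2 / 2) * w ≤ y w := H3 w hw hwX
  -- the upper bound of the density
  have hwn : w ≤ 1 + n := by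
    rcases le_or_gt w 1 with h | h
    · linarith
    · have h3 : Real.exp w ≤ Real.exp ((X - ε) * n) := by
        refine le_trans ?_ hwX
        exact le_mul_of_one_le_left (Real.exp_pos w).le h.le
      rw [Real.exp_le_exp] at h3
      have : (X - ε) * n ≤ 1 * n := mul_le_mul_of_nonneg_right (by linarith) hn0.le
      linarith
  have hb : p ((1 + τ) * w) ≤ (1 + δ) * ((1 + τ) * w + ((1 + τ) * w) ^ 2 / 2) := by
    refine hU _ (by positivity) ?_
    have h1 : 1 + τ ≤ Real.exp τ := by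
      have := Real.add_one_le_exp τ
      linarith
    calc (1 + τ) * w * Real.exp ((1 + τ) * w) = (1 + τ) * (w * Real.exp w) * Real.exp (τ * w) := by
          have : (1 + τ) * w = w + τ * w := by ring
          rw [this, Real.exp_add]
          ring
      _ ≤ Real.exp τ * Real.exp ((X - ε) * n) * Real.exp (τ * w) := by
          refine mul_le_mul_of_nonneg_right ?_ (Real.exp_pos _).le
          exact mul_le_mul h1 hwX (by positivity) (Real.exp_pos _).le
      _ = Real.exp (τ + (X - ε) * n + τ * w) := by rw [Real.exp_add, Real.exp_add]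
      _ ≤ Real.exp ((X - ε / 2) * n) := by
          rw [Real.exp_le_exp]
          have h2 : τ * w ≤ τ * (1 + n) := mul_le_mul_of_nonneg_left hwn hτ0.le
          have h3 : τ * (2 + n) ≤ ε / 2 * n := by
            rw [hτ]
            nlinarith
          nlinarith
  have h5 := H5 w ((1 + τ) * w) hw (by nlinarith)
  have hlog : τ / (1 + τ) ≤ Real.log ((1 + τ) * w / w) := by
    have h := log_ratio hw (show (0 : ℝ) < (1 + τ) * w by positivity)
    refine le_trans (le_of_eq ?_) h
    field_simp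
    ring
  have hy0 := H1 w hw
  have h6 : τ / (1 + τ) * (1 + w) * y w ≤ p ((1 + τ) * w) - p w := by
    refine le_trans ?_ h5
    refine mul_le_mul_of_nonneg_right ?_ hy0.le
    have h7 : τ / (1 + τ) ≤ τ := div_le_self hτ0.le (by linarith)
    have h8 : τ / (1 + τ) * w ≤ τ * w := mul_le_mul_of_nonneg_right h7 hw.le
    have h9 : (1 + τ) * w - w = τ * w := by ring
    rw [h9]
    linarith
  have h7 : p ((1 + τ) * w) - p w ≤ τ * w * ((1 + τ) * (1 + w)) := by
    have h8 : δ * ((1 + τ) * w + ((1 + τ) * w) ^ 2 / 2) ≤ τ ^ 2 / 2 * (w + w ^ 2 / 2) := by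
      have h9 : (1 + τ) * w + ((1 + τ) * w) ^ 2 / 2 ≤ 4 * (w + w ^ 2 / 2) := by
        have : (1 + τ) ^ 2 ≤ 4 := by nlinarith
        have h10 : (1 + τ) ^ 2 * w ^ 2 ≤ 4 * w ^ 2 := mul_le_mul_of_nonneg_right this (sq_nonneg w)
        nlinarith
      calc δ * ((1 + τ) * w + ((1 + τ) * w) ^ 2 / 2) ≤ δ * (4 * (w + w ^ 2 / 2)) :=
            mul_le_mul_of_nonneg_left h9 hδ0.le
        _ = τ ^ 2 / 2 * (w + w ^ 2 / 2) := by rw [hδ]; ring
    nlinarith
  have hyU : y w ≤ (1 + τ) ^ 2 * w := by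
    have h8 := h6.trans h7
    have h9 : 0 < τ / (1 + τ) * (1 + w) := by positivity
    have h10 : τ * w * ((1 + τ) * (1 + w)) = τ / (1 + τ) * (1 + w) * ((1 + τ) ^ 2 * w) := by
      field_simp
    rw [h10] at h8
    exact le_of_mul_le_mul_left h8 h9
  have ht2 : τ ^ 2 / 2 ≤ ε := by nlinarith
  have hδε : δ ≤ ε := by nlinarith
  have ht3 : (1 + τ) ^ 2 ≤ 1 + ε := by nlinarith
  have hΦ : 0 ≤ w + w ^ 2 / 2 := by positivity
  constructor
  · rw [abs_le]
    constructor
    · nlinarith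
    · nlinarith
  · rw [abs_le]
    constructor
    · nlinarith
    · nlinarith

end Run7.h933.EOS
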