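import Pool.Agent.Run7.h933.EOS.Tuple
import Pool.Agent.N424.HG.Canon

/-!
# The probability that random words form a code
-/

set_option autoImplicit false

open Finset Filter Topology

namespace Run7.h933.EOS

variable {δ : ℝ}

lemma vol_ratio (h0 : 0 < δ) (h1 : δ < 1 / 2) {n : ℕ} (hn : 1 ≤ n) :
    Vol n (tn δ n) / 2 ^ n ≤ Real.exp (-(Real.log 2 - Real.binEntropy δ) * n) := by
  have h2 := vol_le h0 h1 hn
  have e : (2 : ℝ) ^ n = Real.exp (Real.log 2 * n) := by
    rw [mul_comm, Real.exp_nat_mul, Real.exp_log (by norm_num)]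
  rw [e, div_le_iff₀ (Real.exp_pos _), ← Real.exp_add]
  refine h2.trans (le_of_eq ?_)
  congr 1
  ring

lemma bin_lt (h1 : δ < 1 / 2) : Real.binEntropy δ < Real.log 2 :=
  Real.binEntropy_lt_log_two.2 (by
    intro h
    rw [h] at h1
    norm_num at h1)

/-- **The canonical form.** -/
theorem canon (h0 : 0 < δ) (h1 : δ < 1 / 2) {ε : ℝ} (hε : 0 < ε) :
    ∀ᶠ n : ℕ in atTop, ∀ k : ℕ, ε ≤ k * (Vol n (tn δ n) / 2 ^ n) →
      k * (Vol n (tn δ n) / 2 ^ n) ≤ (cE δ - ε) * n →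
      0 < prob (ball n (2 * tn δ n)) k ∧
      |Real.log (prob (ball n (2 * tn δ n)) k) + k ^ 2 * (Vol n (tn δ n) / 2 ^ n) / 2| ≤
        ε * (k ^ 2 * (Vol n (tn δ n) / 2 ^ n)) := by
  have hX0 := cE_pos h0 h1
  set X := cE δ with hX
  have hX1 : X < 1 := by
    have := lE_le h0 h1
    have := bin_lt_one δ
    have : X ≤ lE δ := min_le_left _ _
    linarith
  obtain ⟨ε₁, hε₁, D₀, hD₀, hcan⟩ := Pool.Agent.N424.HG.canon ε hε
  -- choice of the margin
  obtain ⟨ε₂, hε₂, hm⟩ : ∃ ε₂ : ℝ, 0 < ε₂ ∧ (1 + ε) * (X - ε) ≤ X - 2 * ε₂ := by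
    refine ⟨(ε * (1 - X) + ε ^ 2) / 2, by
      have : 0 < 1 - X := by linarith
      positivity, le_of_eq ?_⟩
    ring
  have hbin := bin_lt h1
  filter_upwards [state h0 h1 (lt_min hε₁ hε₂), eventually_ge_atTop 1,
    ev_small 1 (show 0 < Real.log 2 - Real.binEntropy δ by linarith) hD₀, ev_lin 1 0 hε₂]
    with n a1 a2 a3 a4 k hk1 hk2
  have hn0 : (0 : ℝ) < n := by exact_mod_cast a2
  have hV := Vol_pos n (tn δ n)
  have hD : 0 < Vol n (tn δ n) / 2 ^ n := by positivity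
  refine hcan (Vol n (tn δ n) / 2 ^ n) ((X - 2 * ε₂) * n) hD ?_ (prob (ball n (2 * tn δ n)))
    (prob_anti _) (fun k => ⟨prob_nonneg _ k, prob_le_one _ k⟩) ?_ k hk1 ?_
  · rw [one_mul] at a3
    exact (vol_ratio h0 h1 a2).trans a3
  · intro w hw hwX
    have h5 : w * Real.exp w ≤ Real.exp ((X - min ε₁ ε₂) * n) := by
      have h6 : w ≤ n := by
        have : (X - 2 * ε₂) * n ≤ 1 * n := mul_le_mul_of_nonneg_right (by linarith) hn0.le
        linarith
      have h7 : (n : ℝ) ≤ Real.exp (ε₂ * n) := by linarith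
      calc w * Real.exp w ≤ Real.exp (ε₂ * n) * Real.exp ((X - 2 * ε₂) * n) :=
            mul_le_mul (h6.trans h7) (Real.exp_le_exp.2 hwX) (Real.exp_pos _).le (Real.exp_pos _).le
        _ = Real.exp ((X - ε₂) * n) := by rw [← Real.exp_add]; congr 1; ring
        _ ≤ Real.exp ((X - min ε₁ ε₂) * n) := by
            apply Real.exp_le_exp.2
            have := min_le_right ε₁ ε₂
            exact mul_le_mul_of_nonneg_right (by linarith) hn0.le
    obtain ⟨-, h6⟩ := a1 w hw h5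
    have h7 : ZZ n (tn δ n) (act n (tn δ n) w) =
        ∑' k : ℕ, (w * Real.exp w / (Vol n (tn δ n) / 2 ^ n)) ^ k / k.factorial *
          prob (ball n (2 * tn δ n)) k := by
      unfold ZZ
      rw [← Z_series (ball_nb n (2 * tn δ n))]
      refine tsum_congr fun k => ?_
      congr 3
      rw [card_words]
      unfold act
      field_simp
    rw [h7, abs_le] at h6
    have h8 : min ε₁ ε₂ ≤ ε₁ := min_le_left _ _
    have h9 : 0 ≤ w + w ^ 2 / 2 := by positivity
    have h10 := mul_le_mul_of_nonneg_right h8 h9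
    constructor <;> linarith [h6.1, h6.2]
  · calc (1 + ε) * (k * (Vol n (tn δ n) / 2 ^ n)) ≤ (1 + ε) * ((X - ε) * n) :=
          mul_le_mul_of_nonneg_left hk2 (by linarith)
      _ = (1 + ε) * (X - ε) * n := by ring
      _ ≤ (X - 2 * ε₂) * n := mul_le_mul_of_nonneg_right hm hn0.le

end Run7.h933.EOS
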