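import Mathlib

/-!
# The hard-core gas on a finite graph

`B x` is the closed neighbourhood of `x`. `Z B lam U` is the sum of `lam ^ |I|` over the independent
subsets `I` of `U`, `M B lam U` is the sum of `|I| * lam ^ |I|`.
-/

set_option autoImplicit false

open Finset

namespace Run7.h933.EOS

variable {V : Type*} [DecidableEq V]

/-- independent sets -/
def Ind (B : V → Finset V) (I : Finset V) : Prop := ∀ x ∈ I, ∀ y ∈ I, x ≠ y → y ∉ B x

open Classical in
/-- the independent subsets of `U` -/
noncomputable def fam (B : V → Finset V) (U : Finset V) : Finset (Finset V) :=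
  U.powerset.filter (Ind B)

lemma mem_fam {B : V → Finset V} {U I : Finset V} : I ∈ fam B U ↔ I ⊆ U ∧ Ind B I := by
  classical
  unfold fam
  rw [mem_filter, mem_powerset]

/-- the partition function -/
noncomputable def Z (B : V → Finset V) (lam : ℝ) (U : Finset V) : ℝ :=
  ∑ I ∈ fam B U, lam ^ I.card

/-- the sum of the sizes -/
noncomputable def M (B : V → Finset V) (lam : ℝ) (U : Finset V) : ℝ :=
  ∑ I ∈ fam B U, (I.card : ℝ) * lam ^ I.card

/-- neighbourhoods of a graph -/
structure Nb (B : V → Finset V) : Prop where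
  refl : ∀ x, x ∈ B x
  symm : ∀ x y, y ∈ B x → x ∈ B y

variable {B : V → Finset V} {lam : ℝ}

lemma Ind.mono {I J : Finset V} (h : Ind B J) (hI : I ⊆ J) : Ind B I :=
  fun x hx y hy => h x (hI hx) y (hI hy)

lemma ind_empty : Ind B ∅ := by intro x hx; simp at hx

lemma fam_mono {U W : Finset V} (h : U ⊆ W) : fam B U ⊆ fam B W := by
  intro I hI
  rw [mem_fam] at hI ⊢
  exact ⟨hI.1.trans h, hI.2⟩

lemma empty_mem_fam (U : Finset V) : ∅ ∈ fam B U := by
  rw [mem_fam]
  exact ⟨Finset.empty_subset _, ind_empty⟩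

lemma fam_empty : fam B ∅ = {∅} := by
  ext I
  rw [mem_fam, mem_singleton, Finset.subset_empty]
  constructor
  · exact fun h => h.1
  · rintro rfl
    exact ⟨rfl, ind_empty⟩

@[simp] lemma Z_empty : Z B lam ∅ = 1 := by
  unfold Z
  rw [fam_empty]
  simp

lemma Z_mono (hl : 0 ≤ lam) {U W : Finset V} (h : U ⊆ W) : Z B lam U ≤ Z B lam W := by
  unfold Z
  exact Finset.sum_le_sum_of_subset_of_nonneg (fam_mono h) fun _ _ _ => by positivity

lemma one_le_Z (hl : 0 ≤ lam) (U : Finset V) : 1 ≤ Z B lam U := by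
  have h := Z_mono (B := B) hl (Finset.empty_subset U)
  rwa [Z_empty] at h

lemma Z_pos (hl : 0 ≤ lam) (U : Finset V) : 0 < Z B lam U :=
  lt_of_lt_of_le one_pos (one_le_Z hl U)

/-- the independent sets containing `v` -/
lemma sum_mem (hB : Nb B) {U : Finset V} {v : V} (hv : v ∈ U) (f : ℕ → ℝ) :
    ∑ I ∈ (fam B U).filter (fun I => v ∈ I), f I.card =
      ∑ I ∈ fam B (U \ B v), f (I.card + 1) := by
  symm
  refine Finset.sum_bij (fun I _ => insert v I) ?_ ?_ ?_ ?_
  · intro I hI
    rw [mem_fam] at hI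
    rw [mem_filter, mem_fam]
    refine ⟨⟨?_, ?_⟩, mem_insert_self _ _⟩
    · exact Finset.insert_subset hv (hI.1.trans Finset.sdiff_subset)
    · intro x hx y hy hxy
      rw [mem_insert] at hx hy
      rcases hx with rfl | hx <;> rcases hy with rfl | hy
      · exact absurd rfl hxy
      · exact (mem_sdiff.1 (hI.1 hy)).2
      · intro h
        exact (mem_sdiff.1 (hI.1 hx)).2 (hB.symm _ _ h)
      · exact hI.2 x hx y hy hxy
  · intro I hI J hJ h
    rw [mem_fam] at hI hJ
    have h1 : v ∉ I := fun h => (mem_sdiff.1 (hI.1 h)).2 (hB.refl v)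
    have h2 : v ∉ J := fun h => (mem_sdiff.1 (hJ.1 h)).2 (hB.refl v)
    have h' : insert v I = insert v J := h
    rw [← Finset.erase_insert h1, h', Finset.erase_insert h2]
  · intro J hJ
    rw [mem_filter, mem_fam] at hJ
    obtain ⟨⟨h1, h2⟩, h3⟩ := hJ
    refine ⟨J.erase v, ?_, Finset.insert_erase h3⟩
    rw [mem_fam]
    refine ⟨?_, h2.mono (Finset.erase_subset _ _)⟩
    intro y hy
    rw [mem_erase] at hy
    rw [mem_sdiff]
    exact ⟨h1 hy.2, h2 v h3 y hy.2 hy.1.symm⟩
  · intro I hI
    rw [mem_fam] at hI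
    have h1 : v ∉ I := fun h => (mem_sdiff.1 (hI.1 h)).2 (hB.refl v)
    rw [Finset.card_insert_of_notMem h1]

/-- the independent sets not containing `v` -/
lemma fam_not_mem (U : Finset V) (v : V) :
    (fam B U).filter (fun I => v ∉ I) = fam B (U.erase v) := by
  ext I
  rw [mem_filter, mem_fam, mem_fam, Finset.subset_erase]
  tauto

lemma Z_rec (hB : Nb B) {U : Finset V} {v : V} (hv : v ∈ U) :
    Z B lam U = Z B lam (U.erase v) + lam * Z B lam (U \ B v) := by
  have h1 := Finset.sum_filter_add_sum_filter_not (fam B U) (fun I => v ∈ I)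
    (fun I => lam ^ I.card)
  rw [fam_not_mem, sum_mem hB hv (fun k => lam ^ k)] at h1
  unfold Z
  rw [← h1, add_comm, Finset.mul_sum]
  congr 1
  exact Finset.sum_congr rfl fun I _ => by rw [pow_succ]; ring

lemma Z_le_exp (hB : Nb B) (hl : 0 ≤ lam) (U : Finset V) :
    Z B lam U ≤ Real.exp (lam * U.card) := by
  induction U using Finset.induction_on with
  | empty => simp
  | insert v U hv ih =>
    rw [Z_rec hB (mem_insert_self v U), Finset.erase_insert hv, Finset.card_insert_of_notMem hv]
    have h1 : insert v U \ B v ⊆ U := by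
      intro y hy
      rw [mem_sdiff, mem_insert] at hy
      rcases hy.1 with rfl | h
      · exact absurd (hB.refl y) hy.2
      · exact h
    have h2 := Z_mono (B := B) hl h1
    push_cast
    calc Z B lam U + lam * Z B lam (insert v U \ B v)
        ≤ Z B lam U + lam * Z B lam U := by gcongr
      _ = (lam + 1) * Z B lam U := by ring
      _ ≤ Real.exp lam * Real.exp (lam * U.card) :=
          mul_le_mul (Real.add_one_le_exp lam) ih (Z_pos hl U).le (Real.exp_pos _).le
      _ = Real.exp (lam * (U.card + 1)) := by rw [← Real.exp_add]; congr 1; ring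

lemma log_Z_le (hB : Nb B) (hl : 0 ≤ lam) (U : Finset V) :
    Real.log (Z B lam U) ≤ lam * U.card := by
  have := Real.log_le_log (Z_pos hl U) (Z_le_exp hB hl U)
  rwa [Real.log_exp] at this

lemma log_Z_nonneg (hl : 0 ≤ lam) (U : Finset V) : 0 ≤ Real.log (Z B lam U) :=
  Real.log_nonneg (one_le_Z hl U)

lemma M_nonneg (hl : 0 ≤ lam) (U : Finset V) : 0 ≤ M B lam U := by
  unfold M
  exact Finset.sum_nonneg fun _ _ => by positivity

/-- the mean number as a sum over the points -/
lemma M_eq (hB : Nb B) (U : Finset V) : M B lam U = lam * ∑ v ∈ U, Z B lam (U \ B v) := by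
  have h1 : ∀ v ∈ U, lam * Z B lam (U \ B v) = ∑ I ∈ fam B U, if v ∈ I then lam ^ I.card else 0 := by
    intro v hv
    rw [← Finset.sum_filter, sum_mem hB hv (fun k => lam ^ k)]
    unfold Z
    rw [Finset.mul_sum]
    exact Finset.sum_congr rfl fun I _ => by rw [pow_succ]; ring
  rw [Finset.mul_sum, Finset.sum_congr rfl h1, Finset.sum_comm]
  unfold M
  refine Finset.sum_congr rfl fun I hI => ?_
  rw [mem_fam] at hI
  rw [← Finset.sum_filter, Finset.sum_const, nsmul_eq_mul]
  congr 2
  congr 1
  ext x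
  rw [mem_filter]
  exact ⟨fun h => ⟨hI.1 h, h⟩, fun h => h.2⟩

/-- removing the points of `S` one by one -/
lemma Z_sdiff (hB : Nb B) (hl : 0 ≤ lam) (U S : Finset V) (hS : S ⊆ U) :
    Z B lam U ≤ Z B lam (U \ S) + lam * S.card * Z B lam U := by
  induction S using Finset.induction_on with
  | empty => simp
  | insert w S hw ih =>
    have h1 := ih ((Finset.subset_insert _ _).trans hS)
    have hwU : w ∈ U := hS (mem_insert_self _ _)
    have h2 : w ∈ U \ S := mem_sdiff.2 ⟨hwU, hw⟩
    have h3 := Z_rec (lam := lam) hB h2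
    have h4 : (U \ S).erase w = U \ insert w S := by
      ext x
      simp only [mem_erase, mem_sdiff, mem_insert]
      tauto
    have h5 : Z B lam ((U \ S) \ B w) ≤ Z B lam U :=
      Z_mono hl (Finset.sdiff_subset.trans Finset.sdiff_subset)
    rw [h4] at h3
    rw [Finset.card_insert_of_notMem hw]
    push_cast
    have h6 := mul_le_mul_of_nonneg_left h5 hl
    linarith

/-- the mean number in a sparse set -/
lemma M_ge (hB : Nb B) (hl : 0 ≤ lam) (F : Finset V) (K : ℝ)
    (hK : ∑ u ∈ F, ((F ∩ B u).card : ℝ) ≤ K * F.card) :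
    (1 - lam * K) * (lam * F.card) * Z B lam F ≤ M B lam F := by
  rw [M_eq hB]
  have h1 : ∀ u ∈ F, Z B lam F - lam * ((F ∩ B u).card : ℝ) * Z B lam F ≤ Z B lam (F \ B u) := by
    intro u _
    have := Z_sdiff (lam := lam) hB hl F (F ∩ B u) Finset.inter_subset_left
    rw [Finset.sdiff_inter_self_left] at this
    linarith
  have h2 := Finset.sum_le_sum h1
  rw [Finset.sum_sub_distrib, Finset.sum_const, nsmul_eq_mul, ← Finset.sum_mul, ← Finset.mul_sum]
    at h2
  have h3 : lam * (∑ u ∈ F, ((F ∩ B u).card : ℝ)) * Z B lam F ≤ lam * (K * F.card) * Z B lam F :=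
    mul_le_mul_of_nonneg_right (mul_le_mul_of_nonneg_left hK hl) (Z_pos hl F).le
  have h4 : Z B lam F * F.card * (1 - lam * K) ≤ ∑ v ∈ F, Z B lam (F \ B v) := by
    refine le_trans (le_of_eq ?_) (le_trans (sub_le_sub_left h3 _) h2)
    ring
  calc (1 - lam * K) * (lam * F.card) * Z B lam F
      = lam * (Z B lam F * F.card * (1 - lam * K)) := by ring
    _ ≤ _ := mul_le_mul_of_nonneg_left h4 hl

lemma M_ge_log (hB : Nb B) (hl : 0 ≤ lam) (F : Finset V) (K : ℝ)
    (hK : ∑ u ∈ F, ((F ∩ B u).card : ℝ) ≤ K * F.card) (hlK : lam * K ≤ 1) :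
    (1 - lam * K) * Real.log (Z B lam F) * Z B lam F ≤ M B lam F := by
  refine le_trans ?_ (M_ge hB hl F K hK)
  refine mul_le_mul_of_nonneg_right ?_ (Z_pos hl F).le
  exact mul_le_mul_of_nonneg_left (log_Z_le hB hl F) (by linarith)

/-- **Convexity** of the logarithm of the partition function. -/
lemma conv {a b : ℝ} (ha : 0 < a) (hb : 0 < b) (U : Finset V) :
    Real.log (b / a) * (M B a U / Z B a U) ≤ Real.log (Z B b U) - Real.log (Z B a U) := by
  have hZa := Z_pos (B := B) ha.le U
  have hZb := Z_pos (B := B) hb.le U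
  set L := Real.log (b / a) with hL
  set m := M B a U / Z B a U with hm
  have hmM : m * Z B a U = M B a U := by rw [hm]; field_simp
  have hexpL : Real.exp L = b / a := by rw [hL, Real.exp_log (by positivity)]
  have key : Real.exp (L * m) * Z B a U ≤ Z B b U := by
    have h1 : ∀ I ∈ fam B U, Real.exp (L * m) * (a ^ I.card + L * (I.card * a ^ I.card - m * a ^ I.card))
        ≤ b ^ I.card := by
      intro I _
      have h2 : b ^ I.card = a ^ I.card * Real.exp (L * I.card) := by
        rw [mul_comm L, Real.exp_nat_mul, hexpL, div_pow]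
        field_simp
      rw [h2]
      have h3 := Real.add_one_le_exp (L * (I.card - m))
      have h4 : Real.exp (L * I.card) = Real.exp (L * m) * Real.exp (L * (I.card - m)) := by
        rw [← Real.exp_add]; congr 1; ring
      rw [h4]
      have h5 := mul_le_mul_of_nonneg_left h3 (show 0 ≤ Real.exp (L * m) * a ^ I.card by positivity)
      calc Real.exp (L * m) * (a ^ I.card + L * (I.card * a ^ I.card - m * a ^ I.card))
          = Real.exp (L * m) * a ^ I.card * (L * (I.card - m) + 1) := by ring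
        _ ≤ Real.exp (L * m) * a ^ I.card * Real.exp (L * (I.card - m)) := h5
        _ = _ := by ring
    have h2 := Finset.sum_le_sum h1
    rw [← Finset.mul_sum, Finset.sum_add_distrib, ← Finset.mul_sum, Finset.sum_sub_distrib,
      ← Finset.mul_sum] at h2
    have e1 : ∑ I ∈ fam B U, a ^ I.card = Z B a U := rfl
    have e2 : ∑ I ∈ fam B U, (I.card : ℝ) * a ^ I.card = M B a U := rfl
    have e3 : ∑ I ∈ fam B U, b ^ I.card = Z B b U := rfl
    rw [e1, e2, e3, hmM, sub_self, mul_zero, add_zero] at h2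
    exact h2
  have h2 := Real.log_le_log (by positivity) key
  rw [Real.log_mul (Real.exp_pos _).ne' hZa.ne', Real.log_exp] at h2
  linarith

end Run7.h933.EOS
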