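import Pool.Agent.R158.Kraw
import Pool.Agent.Run7.h933.EOS.Gas

/-!
# Supersaturation for the Hamming cube
-/

set_option autoImplicit false

open Finset

namespace Run7.h933.EOS

open Pool.Agent.R158.Walsh Pool.Agent.R158.Kraw

lemma adda {n : ℕ} (x y : Fin n → Bool) (i : Fin n) : add x y i = xor (x i) (y i) := rfl

lemma addc {n : ℕ} (x y : Fin n → Bool) : add x y = add y x :=
  Pool.Agent.R158.Walsh.add_comm' x y

/-- the ball with radius `D` -/
def ball (n D : ℕ) (x : Fin n → Bool) : Finset (Fin n → Bool) :=
  univ.filter fun y => hammingDist x y ≤ D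

lemma mem_ball {n D : ℕ} {x y : Fin n → Bool} : y ∈ ball n D x ↔ hammingDist x y ≤ D := by
  simp [ball]

lemma ball_nb (n D : ℕ) : Nb (ball n D) :=
  ⟨fun x => by rw [mem_ball, hammingDist_self]; exact Nat.zero_le _,
    fun x y h => by rw [mem_ball] at h ⊢; rwa [hammingDist_comm]⟩

/-- the zero word -/
def zw (n : ℕ) : Fin n → Bool := fun _ => false

lemma dist_add {n : ℕ} (x y : Fin n → Bool) : hammingDist x y = hammingDist (zw n) (add x y) := by
  unfold hammingDist
  congr 1
  ext i
  simp only [mem_filter, mem_univ, true_and, zw, adda]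
  cases hx : x i <;> cases hy : y i <;> simp

lemma card_ball (n D : ℕ) (x : Fin n → Bool) : (ball n D x).card = (ball n D (zw n)).card := by
  refine Finset.card_bij (fun y _ => add x y) ?_ ?_ ?_
  · intro y hy
    rw [mem_ball] at hy ⊢
    rwa [← dist_add]
  · intro y _ z _ h
    have h' : add x y = add x z := h
    rw [addc x y, addc x z] at h'
    rw [← add_add_cancel y x, h', add_add_cancel]
  · intro z hz
    refine ⟨add z x, ?_, ?_⟩
    · rw [mem_ball] at hz ⊢
      rw [dist_add, addc x, add_add_cancel]
      exact hz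
    · show add x (add z x) = z
      rw [addc x, add_add_cancel]

/-- the indicator function of a set -/
noncomputable def indf {α : Type*} [DecidableEq α] (U : Finset α) (x : α) : ℝ := if x ∈ U then 1 else 0

lemma fourier_count {n : ℕ} (U : Finset (Fin n → Bool)) (D : ℕ) :
    ∑ S : Finset (Fin n), hat (indf U) S ^ 2 * hat (indf (ball n D (zw n))) S =
      (2 : ℝ) ^ n * ∑ x ∈ U, ((U ∩ ball n D x).card : ℝ) := by
  have h1 : ∀ S : Finset (Fin n), hat (indf U) S ^ 2 * hat (indf (ball n D (zw n))) S =
      ∑ x, ∑ y, ∑ z, indf U x * indf U y * indf (ball n D (zw n)) z * chi S (add (add x y) z) := by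
    intro S
    unfold hat
    rw [sq, sum_mul_sum, sum_mul]
    refine sum_congr rfl fun x _ => ?_
    rw [sum_mul]
    refine sum_congr rfl fun y _ => ?_
    rw [mul_sum]
    refine sum_congr rfl fun z _ => ?_
    rw [chi_add, chi_add]
    ring
  simp only [h1]
  rw [sum_comm, mul_sum]
  have h2 : ∀ x : Fin n → Bool, ∑ S : Finset (Fin n), ∑ y, ∑ z,
      indf U x * indf U y * indf (ball n D (zw n)) z * chi S (add (add x y) z) =
      if x ∈ U then (2 : ℝ) ^ n * ((U ∩ ball n D x).card : ℝ) else 0 := by
    intro x
    rw [sum_comm]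
    have h3 : ∀ y : Fin n → Bool, ∑ S : Finset (Fin n), ∑ z,
        indf U x * indf U y * indf (ball n D (zw n)) z * chi S (add (add x y) z) =
        if x ∈ U then (2 : ℝ) ^ n * (if y ∈ U ∩ ball n D x then 1 else 0) else 0 := by
      intro y
      rw [sum_comm, Finset.sum_eq_single (add x y)]
      · rw [← mul_sum, sum_chi, if_pos]
        · unfold indf
          have : (add x y ∈ ball n D (zw n)) ↔ y ∈ ball n D x := by
            rw [mem_ball, mem_ball, ← dist_add]
          by_cases hx : x ∈ U
          · by_cases hy : y ∈ U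
            · by_cases hb : y ∈ ball n D x
              · have hb' := this.2 hb
                simp [hx, hy, hb, hb']
              · have hb' : add x y ∉ ball n D (zw n) := fun h => hb (this.1 h)
                simp [hx, hy, hb, hb']
            · simp [hy]
          · simp [hx]
        · ext i
          simp
      · intro z _ hz
        rw [← mul_sum, sum_chi, if_neg, mul_zero]
        intro h
        apply hz
        ext i
        have := congrFun h i
        simp only [adda] at this ⊢
        revert this
        cases x i <;> cases y i <;> cases z i <;> simp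
      · intro h; exact absurd (mem_univ _) h
    simp only [h3]
    by_cases hx : x ∈ U
    · simp only [hx, if_true]
      rw [← mul_sum, ← Finset.sum_filter, Finset.sum_const, nsmul_eq_mul, mul_one,
        Finset.filter_univ_mem]
    · simp [hx]
  simp only [h2]
  rw [← Finset.sum_filter, Finset.filter_univ_mem]

/-- supersaturation from the least eigenvalue -/
theorem supersat {n D : ℕ} {ρ : ℝ} (hρ : 0 ≤ ρ)
    (h : ∀ S : Finset (Fin n), S.Nonempty →
      -(ρ * (ball n D (zw n)).card) ≤ hat (indf (ball n D (zw n))) S)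
    (U : Finset (Fin n → Bool)) :
    ((ball n D (zw n)).card : ℝ) / 2 ^ n * U.card ^ 2 - ρ * (ball n D (zw n)).card * U.card ≤
      ∑ u ∈ U, ((U ∩ ball n D u).card : ℝ) := by
  set W : ℝ := ((ball n D (zw n)).card : ℝ) with hW
  have hW0 : 0 ≤ W := by rw [hW]; positivity
  have h1 := fourier_count U D
  have hpar := hat_sq_sum (indf U)
  rw [Fintype.card_fin] at hpar
  have e1 : ∑ x : Fin n → Bool, indf U x ^ 2 = U.card := by
    unfold indf
    simp
  rw [e1] at hpar
  have e2 : hat (indf U) ∅ = U.card := by
    unfold hat indf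
    simp [chi_empty]
  have e3 : hat (indf (ball n D (zw n))) ∅ = W := by
    unfold hat indf
    simp [chi_empty, hW]
  have h2 : ∀ S : Finset (Fin n), (if S = ∅ then (U.card : ℝ) ^ 2 * W else 0) -
      ρ * W * hat (indf U) S ^ 2 ≤ hat (indf U) S ^ 2 * hat (indf (ball n D (zw n))) S := by
    intro S
    split_ifs with hS
    · rw [hS, e2, e3]
      have : 0 ≤ ρ * W * (U.card : ℝ) ^ 2 := by positivity
      linarith
    · have h3 := h S (Finset.nonempty_iff_ne_empty.2 hS)
      have h4 := mul_le_mul_of_nonneg_left h3 (sq_nonneg (hat (indf U) S))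
      linarith
  have h3 := Finset.sum_le_sum fun S (_ : S ∈ (univ : Finset (Finset (Fin n)))) => h2 S
  rw [Finset.sum_sub_distrib, ← Finset.mul_sum, hpar, h1, Finset.sum_ite_eq' univ ∅, if_pos (mem_univ _)]
    at h3
  have h4 : (0 : ℝ) < 2 ^ n := by positivity
  refine le_of_mul_le_mul_left ?_ h4
  refine le_trans (le_of_eq ?_) h3
  field_simp

/-- the signs of a character -/
noncomputable def sgn {n : ℕ} (S : Finset (Fin n)) (i : Fin n) : ℝ := if i ∈ S then -1 else 1

lemma sgn_sq {n : ℕ} (S : Finset (Fin n)) (i : Fin n) : sgn S i * sgn S i = 1 := by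
  unfold sgn
  split_ifs <;> norm_num

/-- support of a word -/
def supp {n : ℕ} (z : Fin n → Bool) : Finset (Fin n) := univ.filter fun i => z i = true

lemma chi_supp {n : ℕ} (S : Finset (Fin n)) (z : Fin n → Bool) :
    chi S z = ∏ i ∈ supp z, sgn S i := by
  have h1 : chi S z = ∏ i ∈ S, (if i ∈ supp z then (-1 : ℝ) else 1) := by
    unfold chi
    refine prod_congr rfl fun i _ => ?_
    unfold sg supp
    by_cases h : z i = true <;> simp [h]
  have h2 : ∏ i ∈ supp z, sgn S i = ∏ i ∈ supp z, (if i ∈ S then (-1 : ℝ) else 1) := rfl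
  rw [h1, h2, Finset.prod_ite, Finset.prod_ite]
  simp only [prod_const_one, mul_one, prod_const]
  congr 2
  ext i
  simp only [mem_filter]
  tauto

lemma dist_supp {n : ℕ} (z : Fin n → Bool) : hammingDist (zw n) z = (supp z).card := by
  unfold hammingDist supp zw
  congr 1
  ext i
  simp only [mem_filter, mem_univ, true_and]
  cases z i <;> simp

/-- sums over words as sums over their supports -/
lemma sum_words {n : ℕ} (F : Finset (Fin n) → ℝ) :
    ∑ z : Fin n → Bool, F (supp z) = ∑ T : Finset (Fin n), F T := by
  refine Finset.sum_bij (fun z _ => supp z) (fun _ _ => mem_univ _) ?_ ?_ (fun _ _ => rfl)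
  · intro z _ w _ h
    ext i
    have h' : supp z = supp w := h
    have : i ∈ supp z ↔ i ∈ supp w := by rw [h']
    unfold supp at this
    simp only [mem_filter, mem_univ, true_and] at this
    cases hz : z i <;> cases hw : w i <;> simp_all
  · intro T _
    refine ⟨fun i => decide (i ∈ T), mem_univ _, ?_⟩
    ext i
    simp [supp]

lemma sum_card_le {n : ℕ} (D : ℕ) (F : Finset (Fin n) → ℝ) :
    ∑ T : Finset (Fin n), (if T.card ≤ D then F T else 0) =
      ∑ j ∈ range (D + 1), ∑ T ∈ powersetCard j univ, F T := by
  rw [← Finset.sum_filter]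
  have hmap : ∀ T ∈ (univ : Finset (Finset (Fin n))).filter (fun T => T.card ≤ D),
      T.card ∈ range (D + 1) := by
    intro T hT
    rw [mem_filter] at hT
    rw [mem_range]
    omega
  rw [← Finset.sum_fiberwise_of_maps_to hmap]
  refine Finset.sum_congr rfl fun j hj => ?_
  rw [mem_range] at hj
  refine Finset.sum_congr ?_ fun _ _ => rfl
  ext T
  simp only [mem_filter, mem_univ, true_and, mem_powersetCard, subset_univ]
  constructor
  · exact fun h => h.2
  · intro h
    exact ⟨by omega, h⟩

/-- the size of the ball -/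
lemma card_ball_eq (n D : ℕ) : ((ball n D (zw n)).card : ℝ) =
    ∑ j ∈ range (D + 1), (n.choose j : ℝ) := by
  have h1 : ((ball n D (zw n)).card : ℝ) =
      ∑ z : Fin n → Bool, (if (supp z).card ≤ D then (1 : ℝ) else 0) := by
    rw [← Finset.sum_filter, Finset.sum_const, nsmul_eq_mul, mul_one]
    congr 2
    ext z
    rw [mem_ball, dist_supp, mem_filter]
    simp
  rw [h1, sum_words (fun T => if T.card ≤ D then (1 : ℝ) else 0),
    sum_card_le D (fun _ => (1 : ℝ))]
  refine Finset.sum_congr rfl fun j _ => ?_
  rw [Finset.sum_const, card_powersetCard, nsmul_eq_mul, mul_one]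
  simp

/-- the eigenvalues -/
lemma hat_ball {n : ℕ} (D : ℕ) (S : Finset (Fin n)) :
    hat (indf (ball n D (zw n))) S = ∑ j ∈ range (D + 1), es univ (sgn S) j := by
  have h1 : hat (indf (ball n D (zw n))) S =
      ∑ z : Fin n → Bool, (if (supp z).card ≤ D then ∏ i ∈ supp z, sgn S i else 0) := by
    unfold hat indf
    refine Finset.sum_congr rfl fun z _ => ?_
    simp only [mem_ball, dist_supp, chi_supp]
    split_ifs <;> simp
  rw [h1, sum_words (fun T => if T.card ≤ D then ∏ i ∈ T, sgn S i else 0), sum_card_le]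
  rfl

lemma es_insert {ι : Type*} [DecidableEq ι] (F : Finset ι) (σ : ι → ℝ) {i : ι} (hi : i ∉ F)
    (j : ℕ) : es (insert i F) σ (j + 1) = es F σ (j + 1) + σ i * es F σ j := by
  rw [← coeff_Q, ← coeff_Q, ← coeff_Q]
  have h1 : Q (insert i F) σ = (1 + Polynomial.C (σ i) * Polynomial.X) * Q F σ := by
    unfold Q; rw [prod_insert hi]
  rw [h1, add_mul, one_mul, Polynomial.coeff_add, mul_assoc, Polynomial.coeff_C_mul,
    Polynomial.coeff_X_mul]

/-- summation over the ball is a Krawtchouk value for one coordinate less -/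
lemma hat_ball_erase {n : ℕ} (D : ℕ) {S : Finset (Fin n)} {i : Fin n} (hi : i ∈ S) :
    hat (indf (ball n D (zw n))) S = es (univ.erase i) (sgn S) D := by
  rw [hat_ball]
  have hσ : sgn S i = -1 := by unfold sgn; rw [if_pos hi]
  have hins : insert i ((univ : Finset (Fin n)).erase i) = univ := Finset.insert_erase (mem_univ i)
  induction D with
  | zero =>
    rw [zero_add, Finset.sum_range_one, es_zero, es_zero]
  | succ D ih =>
    rw [Finset.sum_range_succ, ih]
    have := es_insert (univ.erase i) (sgn S) (Finset.notMem_erase i univ) D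
    rw [hins, hσ] at this
    rw [this]
    ring

end Run7.h933.EOS
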