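import Pool.Agent.Run7.h933.EOS.Model

/-!
# Exponents
-/

set_option autoImplicit false

open Finset Filter Topology

namespace Run7.h933.EOS

/-- the number of errors: `2 t + 1` is the largest odd number which is at most `⌈δ n⌉` -/
noncomputable def tn (δ : ℝ) (n : ℕ) : ℕ := (⌈δ * n⌉₊ - 1) / 2

/-- the exponent of the supersaturation -/
noncomputable def gE (δ : ℝ) : ℝ :=
  (Real.binEntropy (1 / 2 - √(δ * (1 - δ))) + Real.binEntropy δ - Real.log 2) / 2

/-- the exponent of the local sparsity -/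
noncomputable def lE (δ : ℝ) : ℝ :=
  Real.binEntropy δ - (δ * Real.log 2 + (1 - δ) * Real.binEntropy (δ / (2 * (1 - δ))))

section

variable {δ : ℝ} {n : ℕ}

lemma tn_le (h0 : 0 < δ) (hn : 1 ≤ n) : ((2 * tn δ n : ℕ) : ℝ) ≤ δ * n := by
  have hn0 : (0 : ℝ) < n := by exact_mod_cast hn
  have h1 : 0 < δ * n := by positivity
  have h2 : 1 ≤ ⌈δ * n⌉₊ := Nat.one_le_ceil_iff.2 h1
  have h3 := Nat.ceil_lt_add_one h1.le
  have h4 : 2 * tn δ n ≤ ⌈δ * n⌉₊ - 1 := by
    unfold tn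
    exact Nat.mul_div_le _ _
  have h5 : ((2 * tn δ n : ℕ) : ℝ) ≤ ((⌈δ * n⌉₊ - 1 : ℕ) : ℝ) := by exact_mod_cast h4
  rw [Nat.cast_sub h2] at h5
  push_cast at h5 ⊢
  linarith

lemma tn_ge (δ : ℝ) (n : ℕ) : δ * n - 2 ≤ ((2 * tn δ n : ℕ) : ℝ) := by
  have h1 := Nat.le_ceil (δ * n)
  have h4 : ⌈δ * n⌉₊ ≤ 2 * tn δ n + 2 := by
    unfold tn
    omega
  have h5 : ((⌈δ * n⌉₊ : ℕ) : ℝ) ≤ ((2 * tn δ n + 2 : ℕ) : ℝ) := by exact_mod_cast h4
  push_cast at h5 ⊢
  linarith

lemma tn_half (h0 : 0 < δ) (h1 : δ < 1 / 2) (hn : 1 ≤ n) : 2 * (2 * tn δ n) ≤ n := by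
  have h2 := tn_le h0 hn
  have hn0 : (0 : ℝ) < n := by exact_mod_cast hn
  have h3 : ((2 * (2 * tn δ n) : ℕ) : ℝ) ≤ n := by
    push_cast at h2 ⊢
    nlinarith
  exact_mod_cast h3

lemma tendsto_tn (h0 : 0 < δ) :
    Tendsto (fun n : ℕ => ((2 * tn δ n : ℕ) : ℝ) / n) atTop (𝓝 δ) := by
  have h1 : Tendsto (fun n : ℕ => δ - 2 / (n : ℝ)) atTop (𝓝 (δ - 0)) :=
    tendsto_const_nhds.sub (tendsto_const_div_atTop_nhds_zero_nat 2)
  rw [sub_zero] at h1
  refine tendsto_of_tendsto_of_tendsto_of_le_of_le' h1 tendsto_const_nhds ?_ ?_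
  · filter_upwards [eventually_ge_atTop 1] with n hn
    have hn0 : (0 : ℝ) < n := by exact_mod_cast hn
    rw [le_div_iff₀ hn0, sub_mul, div_mul_cancel₀ _ hn0.ne']
    exact tn_ge δ n
  · filter_upwards [eventually_ge_atTop 1] with n hn
    have hn0 : (0 : ℝ) < n := by exact_mod_cast hn
    rw [div_le_iff₀ hn0]
    exact tn_le h0 hn

lemma ev_lin (a b : ℝ) {ε : ℝ} (hε : 0 < ε) : ∀ᶠ n : ℕ in atTop, a * n + b ≤ Real.exp (ε * n) := by
  have h1 : ∀ᶠ n : ℕ in atTop, 4 * (|a| + |b|) / ε ^ 2 ≤ (n : ℝ) :=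
    tendsto_natCast_atTop_atTop.eventually_ge_atTop _
  filter_upwards [h1, eventually_ge_atTop 1] with n hn hn1
  have hnR : (1 : ℝ) ≤ n := by exact_mod_cast hn1
  have h2 : 1 + ε * n / 2 ≤ Real.exp (ε * n / 2) := by linarith [Real.add_one_le_exp (ε * n / 2)]
  have h3 : (ε * n / 2) ^ 2 ≤ Real.exp (ε * n) := by
    have e : Real.exp (ε * n) = Real.exp (ε * n / 2) ^ 2 := by
      rw [← Real.exp_nat_mul]; congr 1; push_cast; ring
    rw [e]
    refine pow_le_pow_left₀ (by positivity) (by linarith) 2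
  refine le_trans ?_ h3
  rw [div_le_iff₀ (by positivity)] at hn
  have h4 : a * n ≤ |a| * n := mul_le_mul_of_nonneg_right (le_abs_self a) (by linarith)
  have h5 : b ≤ |b| * n := by
    have := le_abs_self b
    have h6 : |b| * 1 ≤ |b| * n := mul_le_mul_of_nonneg_left hnR (abs_nonneg b)
    linarith
  have h6 : 4 * (|a| + |b|) * n ≤ n * ε ^ 2 * n := mul_le_mul_of_nonneg_right hn (by linarith)
  nlinarith

/-- the lower bound for the volume -/
lemma ev_vol_ge (h0 : 0 < δ) (h1 : δ < 1 / 2) {ε : ℝ} (hε : 0 < ε) :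
    ∀ᶠ n : ℕ in atTop, Real.exp ((Real.binEntropy δ - ε) * n) ≤ (n.choose (2 * tn δ n) : ℝ) := by
  have h2 : Tendsto (fun n : ℕ => Real.binEntropy (((2 * tn δ n : ℕ) : ℝ) / n)) atTop
      (𝓝 (Real.binEntropy δ)) := (Real.binEntropy_continuous.tendsto δ).comp (tendsto_tn h0)
  have h3 := h2.eventually_const_lt (show Real.binEntropy δ - ε / 2 < Real.binEntropy δ by linarith)
  have h4 : ∀ᶠ n : ℕ in atTop, 3 / δ ≤ (n : ℝ) :=
    tendsto_natCast_atTop_atTop.eventually_ge_atTop _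
  filter_upwards [h3, h4, eventually_ge_atTop 1, ev_lin 1 1 (half_pos hε)] with n a1 a2 a3 a4
  have hn0 : (0 : ℝ) < n := by exact_mod_cast a3
  have hj1 : 1 ≤ 2 * tn δ n := by
    have := tn_ge δ n
    rw [div_le_iff₀ h0] at a2
    have : (1 : ℝ) ≤ ((2 * tn δ n : ℕ) : ℝ) := by linarith
    exact_mod_cast this
  have hj2 : 2 * tn δ n < n := by
    have := tn_half h0 h1 a3
    omega
  have h5 := Pool.Agent.Y570.LS.choose_ge hj1 hj2
  have h6 : Real.exp ((Real.binEntropy δ - ε / 2) * n) ≤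
      Real.exp (n * Real.binEntropy (((2 * tn δ n : ℕ) : ℝ) / n)) := by
    apply Real.exp_le_exp.2
    rw [mul_comm]
    exact mul_le_mul_of_nonneg_left a1.le hn0.le
  have h7 : Real.exp ((Real.binEntropy δ - ε / 2) * n) =
      Real.exp ((Real.binEntropy δ - ε) * n) * Real.exp (ε / 2 * n) := by
    rw [← Real.exp_add]; congr 1; ring
  have h8 : Real.exp ((Real.binEntropy δ - ε) * n) * Real.exp (ε / 2 * n) ≤
      Real.exp (ε / 2 * n) * (n.choose (2 * tn δ n) : ℝ) := by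
    rw [← h7]
    refine h6.trans (h5.trans ?_)
    refine mul_le_mul_of_nonneg_right ?_ (by positivity)
    linarith
  rw [mul_comm] at h8
  exact le_of_mul_le_mul_left h8 (Real.exp_pos _)

lemma vol_le (h0 : 0 < δ) (h1 : δ < 1 / 2) (hn : 1 ≤ n) :
    Vol n (tn δ n) ≤ Real.exp (Real.binEntropy δ * n) := by
  have h2 := tn_half h0 h1 hn
  have h3 := Pool.Agent.Y570.LS.vol_le h0 h1.le n (2 * tn δ n + 1) (by omega) (by
    intro w hw
    have h3 : (w : ℝ) ≤ ((2 * tn δ n : ℕ) : ℝ) := by exact_mod_cast (by omega : w ≤ 2 * tn δ n)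
    have := tn_le h0 hn
    linarith)
  rw [mul_comm (n : ℝ)] at h3
  exact h3

/-- the exponent of the binomial coefficients in the middle -/
lemma ev_choose {β ε : ℝ} (hβ0 : 0 < β) (hβ1 : β ≤ 1 / 2) (hε : 0 < ε) :
    ∀ᶠ m : ℕ in atTop, ∀ x : ℕ, β * m ≤ x → (x : ℝ) ≤ (1 - β) * m →
      Real.exp ((Real.binEntropy β - ε) * m) ≤ (m.choose x : ℝ) := by
  filter_upwards [eventually_ge_atTop 1, ev_lin 1 1 hε] with m hm h1 x hx1 hx2
  have hm0 : (0 : ℝ) < m := by exact_mod_cast hm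
  have hx0 : 1 ≤ x := by
    have : (0 : ℝ) < x := lt_of_lt_of_le (by positivity) hx1
    exact_mod_cast this
  have hxm : x < m := by
    have : (x : ℝ) < m := by nlinarith
    exact_mod_cast this
  have h2 := Pool.Agent.Y570.LS.choose_ge hx0 hxm
  have h3 : Real.binEntropy β ≤ Real.binEntropy ((x : ℝ) / m) := by
    have y1 : β ≤ (x : ℝ) / m := by rw [le_div_iff₀ hm0]; exact hx1
    have y2 : (x : ℝ) / m ≤ 1 - β := by rw [div_le_iff₀ hm0]; exact hx2
    rcases le_total ((x : ℝ) / m) (1 / 2) with h | h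
    · exact Real.binEntropy_strictMonoOn.monotoneOn ⟨hβ0.le, by linarith⟩
        ⟨by linarith, by linarith⟩ y1
    · rw [← Real.binEntropy_one_sub ((x : ℝ) / m)]
      exact Real.binEntropy_strictMonoOn.monotoneOn ⟨hβ0.le, by linarith⟩
        ⟨by linarith, by linarith⟩ (by linarith)
  have h4 : Real.exp (ε * m) * Real.exp ((Real.binEntropy β - ε) * m) ≤
      Real.exp (ε * m) * (m.choose x : ℝ) := by
    rw [← Real.exp_add]
    calc Real.exp (ε * m + (Real.binEntropy β - ε) * m)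
        = Real.exp (m * Real.binEntropy β) := by congr 1; ring
      _ ≤ Real.exp (m * Real.binEntropy ((x : ℝ) / m)) :=
          Real.exp_le_exp.2 (mul_le_mul_of_nonneg_left h3 hm0.le)
      _ ≤ (m + 1) * (m.choose x : ℝ) := h2
      _ ≤ Real.exp (ε * m) * (m.choose x : ℝ) :=
          mul_le_mul_of_nonneg_right (by linarith) (by positivity)
  exact le_of_mul_le_mul_left h4 (Real.exp_pos _)

lemma sqrt_bd (_h0 : 0 < δ) (h1 : δ < 1 / 2) : √(δ * (1 - δ)) < 1 / 2 := by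
  rw [Real.sqrt_lt' (by norm_num)]
  nlinarith [sq_nonneg (1 / 2 - δ)]

/-- the least eigenvalue -/
theorem ev_eig (h0 : 0 < δ) (h1 : δ < 1 / 2) {ε : ℝ} (hε : 0 < ε) :
    ∀ᶠ n : ℕ in atTop, ∀ S : Finset (Fin n), S.Nonempty →
      -(Real.exp (-(gE δ - ε) * n) * Vol n (tn δ n)) ≤
        Pool.Agent.R158.Walsh.hat (indf (ball n (2 * tn δ n) (zw n))) S := by
  -- the point `β` and a smaller point
  obtain ⟨β, hβ⟩ : ∃ β : ℝ, β = 1 / 2 - √(δ * (1 - δ)) := ⟨_, rfl⟩
  have hβ0 : 0 < β := by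
    have := sqrt_bd h0 h1
    rw [hβ]; linarith
  have hβ1 : β < 1 / 2 := by
    have : 0 < √(δ * (1 - δ)) := Real.sqrt_pos.2 (mul_pos h0 (by linarith))
    rw [hβ]; linarith
  obtain ⟨β', hb1, hb2, hb3⟩ : ∃ β' : ℝ, 0 < β' ∧ β' < β ∧
      Real.binEntropy β - ε / 2 < Real.binEntropy β' := by
    have hc : Tendsto Real.binEntropy (𝓝[<] β) (𝓝 (Real.binEntropy β)) :=
      (Real.binEntropy_continuous.tendsto β).mono_left nhdsWithin_le_nhds
    have e1 := hc.eventually_const_lt (show Real.binEntropy β - ε / 2 < Real.binEntropy β by linarith)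
    have e2 : ∀ᶠ x in 𝓝[<] β, x ∈ Set.Ioo 0 β := Ioo_mem_nhdsLT hβ0
    obtain ⟨x, hx1, hx2⟩ := (e1.and e2).exists
    exact ⟨x, hx2.1, hx2.2, hx1⟩
  have hch := ev_choose (β := β') (ε := ε / 4) hb1 (by linarith) (by positivity)
  have hch' : ∀ᶠ n : ℕ in atTop, ∀ x : ℕ, β' * ((n - 1 : ℕ) : ℝ) ≤ x →
      (x : ℝ) ≤ (1 - β') * ((n - 1 : ℕ) : ℝ) →
      Real.exp ((Real.binEntropy β' - ε / 4) * ((n - 1 : ℕ) : ℝ)) ≤ ((n - 1).choose x : ℝ) :=
    (tendsto_sub_atTop_nat 1).eventually hch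
  have h3 : ∀ᶠ n : ℕ in atTop, 1 / (β - β') + 1 + 3 / δ ≤ (n : ℝ) :=
    tendsto_natCast_atTop_atTop.eventually_ge_atTop _
  filter_upwards [hch', h3, eventually_ge_atTop 2, ev_vol_ge h0 h1 (half_pos hε),
    ev_lin 0 2 (show (0 : ℝ) < ε / 4 by positivity)] with n a1 a2 a3 a4 a5
  have hn1 : 1 ≤ n := by omega
  have hnR : (2 : ℝ) ≤ n := by exact_mod_cast a3
  have hn0 : (0 : ℝ) < n := by linarith
  have hcast : ((n - 1 : ℕ) : ℝ) = n - 1 := by
    rw [Nat.cast_sub hn1]; simp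
  have hDle := tn_le h0 hn1
  have hDge := tn_ge δ n
  have hDh := tn_half h0 h1 hn1
  set D := 2 * tn δ n with hD
  have hbb : 0 < β - β' := by linarith
  have hq1 : 1 / (β - β') + 1 ≤ (n : ℝ) := by
    have : 0 < 3 / δ := by positivity
    linarith
  have hq2 : 3 / δ ≤ (n : ℝ) := by
    have : 0 < 1 / (β - β') := by positivity
    linarith
  have hD0 : (0 : ℝ) < D := by
    rw [div_le_iff₀ h0] at hq2
    linarith
  have hDn : (D : ℝ) < n := by
    have : δ * n < 1 / 2 * n := mul_lt_mul_of_pos_right h1 hn0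
    linarith
  set c : ℝ := √((D : ℝ) * (n - D)) with hc
  have hc0 : 0 < c := Real.sqrt_pos.2 (mul_pos hD0 (by linarith))
  have hc2 : (D : ℝ) * (n - D) ≤ c ^ 2 := by
    rw [hc, Real.sq_sqrt (mul_nonneg hD0.le (by linarith))]
  have hcle : c ≤ √(δ * (1 - δ)) * n := by
    rw [hc]
    refine Real.sqrt_le_iff.2 ⟨by positivity, ?_⟩
    rw [mul_pow, Real.sq_sqrt (mul_nonneg h0.le (by linarith))]
    nlinarith [mul_nonneg (sub_nonneg.2 hDle) (show (0 : ℝ) ≤ n - D - δ * n by nlinarith)]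
  intro S hS
  have key := hat_ge (n := n) (D := D) (even_two_mul _) hDh hc0 hc2
    (ρ := Real.exp (-(gE δ - ε) * n)) (Real.exp_pos _).le (by
      intro x hx hxc
      have hxl : β' * ((n - 1 : ℕ) : ℝ) ≤ x ∧ (x : ℝ) ≤ (1 - β') * ((n - 1 : ℕ) : ℝ) := by
        rw [abs_lt] at hxc
        have e1 : 1 / (β - β') * (β - β') = 1 := by field_simp
        have e2 : 1 ≤ (β - β') * ((n : ℝ) - 1) := by
          have := mul_le_mul_of_nonneg_right hq1 hbb.le
          rw [add_mul, e1] at this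
          linarith
        have e3 : √(δ * (1 - δ)) = 1 / 2 - β := by rw [hβ]; ring
        rw [e3] at hcle
        rw [hcast]
        constructor
        · nlinarith
        · nlinarith
      have h4 := a1 x hxl.1 hxl.2
      rw [card_ball, card_ball_eq]
      have hvol : (∑ j ∈ range (D + 1), (n.choose j : ℝ)) = Vol n (tn δ n) := rfl
      rw [hvol]
      have h5 : ((n - 1).choose D : ℝ) ≤ Vol n (tn δ n) := by
        refine le_trans ?_ (choose_le_Vol n (tn δ n))
        exact_mod_cast Nat.choose_le_choose _ (Nat.sub_le n 1)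
      have h6 : Real.exp ((Real.binEntropy δ - ε / 2) * n) ≤ Vol n (tn δ n) :=
        a4.trans (choose_le_Vol n (tn δ n))
      have hV := Vol_pos n (tn δ n)
      have h7 : (2 : ℝ) ^ (n - 1) ≤ Real.exp (-(gE δ - ε) * n) ^ 2 * Vol n (tn δ n) *
          ((n - 1).choose x : ℝ) := by
        have e0 : (2 : ℝ) ^ (n - 1) = Real.exp (((n : ℝ) - 1) * Real.log 2) := by
          rw [← hcast, Real.exp_nat_mul, Real.exp_log (by norm_num)]
        have e1 : Real.exp (-(gE δ - ε) * n) ^ 2 = Real.exp (-(2 * gE δ - 2 * ε) * n) := by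
          rw [← Real.exp_nat_mul]; congr 1; push_cast; ring
        rw [e0, e1]
        calc Real.exp (((n : ℝ) - 1) * Real.log 2)
            ≤ Real.exp (-(2 * gE δ - 2 * ε) * n) * Real.exp ((Real.binEntropy δ - ε / 2) * n) *
              Real.exp ((Real.binEntropy β' - ε / 4) * ((n - 1 : ℕ) : ℝ)) := by
              rw [← Real.exp_add, ← Real.exp_add, hcast]
              apply Real.exp_le_exp.2
              have hg : 2 * gE δ = Real.binEntropy β + Real.binEntropy δ - Real.log 2 := by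
                unfold gE; rw [hβ]; ring
              rw [hg]
              have hl2 : 0 < Real.log 2 := Real.log_pos (by norm_num)
              have hent : Real.binEntropy β' ≤ Real.log 2 := Real.binEntropy_le_log_two
              have a5' : Real.log 2 ≤ ε / 4 * n := by
                rw [zero_mul, zero_add] at a5
                have := Real.log_le_log (by norm_num) a5
                rwa [Real.log_exp] at this
              have hb3' := mul_le_mul_of_nonneg_right hb3.le (show (0 : ℝ) ≤ n - 1 by linarith)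
              nlinarith
          _ ≤ Real.exp (-(2 * gE δ - 2 * ε) * n) * Vol n (tn δ n) * ((n - 1).choose x : ℝ) := by
              gcongr
      calc (2 : ℝ) ^ (n - 1) * ((n - 1).choose D : ℝ)
          ≤ (Real.exp (-(gE δ - ε) * n) ^ 2 * Vol n (tn δ n) * ((n - 1).choose x : ℝ)) *
            Vol n (tn δ n) := mul_le_mul h7 h5 (by positivity) (by positivity)
        _ = (Real.exp (-(gE δ - ε) * n) * Vol n (tn δ n)) ^ 2 * ((n - 1).choose x : ℝ) := by ring)
    S hS
  rw [card_ball, card_ball_eq] at key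
  exact key

end

end Run7.h933.EOS
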