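import Pool.Agent.Run7.h933.EOS.Cube

/-!
# Bounds for Krawtchouk values
-/

set_option autoImplicit false

open Finset

namespace Run7.h933.EOS

open Pool.Agent.R158.Walsh Pool.Agent.R158.Kraw

variable {ι : Type*} [DecidableEq ι]

/-- positivity before the first zero -/
lemma es_nonneg (F : Finset ι) (σ : ι → ℝ) (hσ : ∀ i ∈ F, σ i * σ i = 1) {r : ℕ} {c : ℝ}
    (hc : 0 < c) (h2 : 2 * r ≤ F.card + 1) (hc2 : (r : ℝ) * (F.card + 1 - r) ≤ c ^ 2)
    (hp : 2 * c ≤ ∑ i ∈ F, σ i) : 0 ≤ es F σ r := by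
  set p := ∑ i ∈ F, σ i with hpdef
  have key : ∀ j : ℕ, j + 1 ≤ r → 0 ≤ es F σ j ∧ c * es F σ j ≤ (j + 1) * es F σ (j + 1) := by
    intro j
    induction j with
    | zero =>
      intro _
      rw [es_zero, zero_add, es_one, ← hpdef]
      refine ⟨zero_le_one, ?_⟩
      push_cast
      linarith
    | succ j ih =>
      intro hj
      obtain ⟨i1, i2⟩ := ih (by omega)
      have hj0 : (0 : ℝ) < (j : ℝ) + 1 := by positivity
      have e1 : 0 ≤ es F σ (j + 1) := by
        have : 0 ≤ ((j : ℝ) + 1) * es F σ (j + 1) := le_trans (mul_nonneg hc.le i1) i2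
        exact nonneg_of_mul_nonneg_right this hj0
      refine ⟨e1, ?_⟩
      have hrec := rec_es F σ hσ j
      rw [← hpdef] at hrec
      -- `(j + 1) (m - j) ≤ c ^ 2`
      have hjr : ((j : ℝ) + 1) ≤ r := by exact_mod_cast (by omega : j + 1 ≤ r)
      have h2R : 2 * (r : ℝ) ≤ F.card + 1 := by exact_mod_cast h2
      have hjc : ((j : ℝ) + 1) * (F.card - j) ≤ c ^ 2 := by
        refine le_trans ?_ hc2
        nlinarith
      have hmj : 0 ≤ (F.card : ℝ) - j := by linarith
      have h3 : ((F.card : ℝ) - j) * es F σ j ≤ c * es F σ (j + 1) := by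
        have h4 : ((F.card : ℝ) - j) * (c * es F σ j) ≤ (F.card - j) * ((j + 1) * es F σ (j + 1)) :=
          mul_le_mul_of_nonneg_left i2 hmj
        have h5 : ((F.card : ℝ) - j) * ((j + 1) * es F σ (j + 1)) ≤ c ^ 2 * es F σ (j + 1) := by
          have := mul_le_mul_of_nonneg_right hjc e1
          linarith
        have h6 : c * (((F.card : ℝ) - j) * es F σ j) ≤ c * (c * es F σ (j + 1)) := by
          linarith
        exact le_of_mul_le_mul_left h6 hc
      have h4 : 2 * c * es F σ (j + 1) ≤ p * es F σ (j + 1) := mul_le_mul_of_nonneg_right hp e1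
      push_cast
      have e2 : j + 1 + 1 = j + 2 := rfl
      rw [e2]
      linarith
  rcases Nat.eq_zero_or_pos r with rfl | hr
  · rw [es_zero]; exact zero_le_one
  · obtain ⟨j, rfl⟩ : ∃ j, r = j + 1 := ⟨r - 1, by omega⟩
    obtain ⟨i1, i2⟩ := key j le_rfl
    have : 0 ≤ ((j : ℝ) + 1) * es F σ (j + 1) := le_trans (mul_nonneg hc.le i1) i2
    exact nonneg_of_mul_nonneg_right this (by positivity)

lemma es_neg (F : Finset ι) (σ : ι → ℝ) {r : ℕ} (hr : Even r) :
    es F (fun i => -σ i) r = es F σ r := by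
  unfold es
  refine Finset.sum_congr rfl fun T hT => ?_
  rw [mem_powersetCard] at hT
  rw [Finset.prod_neg, hT.2, hr.neg_one_pow, one_mul]

/-- the Krawtchouk value -/
noncomputable def kc (m x r : ℕ) : ℝ :=
  ((1 - Polynomial.X : Polynomial ℝ) ^ x * (1 + Polynomial.X) ^ (m - x)).coeff r

lemma es_eq_kc {n : ℕ} (F S : Finset (Fin n)) (r : ℕ) :
    es F (sgn S) r = kc F.card (F ∩ S).card r := by
  rw [← coeff_Q]
  unfold kc
  congr 1
  unfold Q
  have h1 : ∀ i ∈ F, (1 + Polynomial.C (sgn S i) * Polynomial.X : Polynomial ℝ) =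
      if i ∈ S then 1 - Polynomial.X else 1 + Polynomial.X := by
    intro i _
    unfold sgn
    split_ifs <;> simp [sub_eq_add_neg]
  have h2 := Finset.card_filter_add_card_filter_not (s := F) (fun i => i ∈ S)
  have h3 : (F.filter fun i => i ∈ S) = F ∩ S := by ext i; simp
  have h4 : (F.filter fun i => i ∉ S).card = F.card - (F ∩ S).card := by
    rw [h3] at h2
    omega
  rw [Finset.prod_congr rfl h1, Finset.prod_ite, prod_const, prod_const, h3, h4]

/-- Parseval -/
lemma parseval (m r : ℕ) :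
    ∑ T : Finset (Fin m), kc m T.card r ^ 2 = 2 ^ m * (m.choose r : ℝ) := by
  have h1 := hat_sq_sum (ι := Fin m) (fun z => if (supp z).card = r then (1 : ℝ) else 0)
  rw [Fintype.card_fin] at h1
  have h2 : ∀ T : Finset (Fin m), hat (fun z : Fin m → Bool => if (supp z).card = r then (1 : ℝ) else 0) T
      = kc m T.card r := by
    intro T
    unfold hat
    have h3 : ∀ z : Fin m → Bool, (if (supp z).card = r then (1 : ℝ) else 0) * chi T z =
        if (supp z).card = r then ∏ i ∈ supp z, sgn T i else 0 := by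
      intro z
      rw [chi_supp]
      split_ifs <;> simp
    simp only [h3]
    rw [sum_words (fun S => if S.card = r then ∏ i ∈ S, sgn T i else 0), ← Finset.sum_filter]
    have h4 := es_eq_kc (univ : Finset (Fin m)) T r
    rw [Finset.card_univ, Fintype.card_fin, Finset.univ_inter] at h4
    rw [← h4]
    unfold es
    refine Finset.sum_congr ?_ fun _ _ => rfl
    ext S
    simp [mem_powersetCard]
  have h3 : ∑ z : Fin m → Bool, (if (supp z).card = r then (1 : ℝ) else 0) ^ 2 = m.choose r := by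
    have h4 : ∀ z : Fin m → Bool, (if (supp z).card = r then (1 : ℝ) else 0) ^ 2 =
        if (supp z).card = r then (1 : ℝ) else 0 := by
      intro z
      split_ifs <;> simp
    simp only [h4]
    rw [sum_words (fun S => if S.card = r then (1 : ℝ) else 0), ← Finset.sum_filter,
      Finset.sum_const, nsmul_eq_mul, mul_one]
    have : (univ : Finset (Finset (Fin m))).filter (fun S => S.card = r) = powersetCard r univ := by
      ext S
      simp [mem_powersetCard]
    rw [this, card_powersetCard]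
    simp
  rw [h3] at h1
  rw [← h1]
  exact Finset.sum_congr rfl fun T _ => by rw [h2]

lemma kc_sq (m x r : ℕ) : (m.choose x : ℝ) * kc m x r ^ 2 ≤ 2 ^ m * (m.choose r : ℝ) := by
  rw [← parseval]
  calc (m.choose x : ℝ) * kc m x r ^ 2 = ∑ T ∈ powersetCard x (univ : Finset (Fin m)), kc m T.card r ^ 2 := by
        have : ∀ T ∈ powersetCard x (univ : Finset (Fin m)), kc m T.card r ^ 2 = kc m x r ^ 2 := by
          intro T hT
          rw [mem_powersetCard] at hT
          rw [hT.2]
        rw [Finset.sum_congr rfl this, Finset.sum_const, card_powersetCard, nsmul_eq_mul]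
        simp
    _ ≤ ∑ T : Finset (Fin m), kc m T.card r ^ 2 :=
        Finset.sum_le_sum_of_subset_of_nonneg (Finset.subset_univ _) fun _ _ _ => sq_nonneg _

/-- the least eigenvalue of the ball -/
theorem hat_ge {n D : ℕ} (hD : Even D) (h2 : 2 * D ≤ n) {c ρ : ℝ} (hc : 0 < c)
    (hc2 : (D : ℝ) * (n - D) ≤ c ^ 2) (hρ : 0 ≤ ρ)
    (hx : ∀ x : ℕ, x ≤ n - 1 → |((n : ℝ) - 1) - 2 * x| < 2 * c →
      2 ^ (n - 1) * ((n - 1).choose D : ℝ) ≤
        (ρ * (ball n D (zw n)).card) ^ 2 * ((n - 1).choose x : ℝ))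
    (S : Finset (Fin n)) (hS : S.Nonempty) :
    -(ρ * (ball n D (zw n)).card) ≤ hat (indf (ball n D (zw n))) S := by
  obtain ⟨i, hi⟩ := hS
  rw [hat_ball_erase D hi]
  set R : ℝ := ρ * (ball n D (zw n)).card with hR
  have hR0 : 0 ≤ R := by rw [hR]; positivity
  set F := (univ : Finset (Fin n)).erase i with hF
  have hn : 1 ≤ n := by
    have := i.2
    omega
  have hFc : F.card = n - 1 := by
    rw [hF, Finset.card_erase_of_mem (mem_univ i), Finset.card_univ, Fintype.card_fin]
  have hFcR : (F.card : ℝ) = n - 1 := by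
    rw [hFc, Nat.cast_sub hn]
    simp
  have hσ : ∀ j ∈ F, sgn S j * sgn S j = 1 := fun j _ => sgn_sq S j
  -- the sum of the signs
  have hxle : (F ∩ S).card ≤ n - 1 := by
    rw [← hFc]
    exact Finset.card_le_card Finset.inter_subset_left
  have hsum : ∑ j ∈ F, sgn S j = ((n : ℝ) - 1) - 2 * (F ∩ S).card := by
    have h3 : ∀ j ∈ F, sgn S j = 1 - 2 * (if j ∈ S then (1 : ℝ) else 0) := by
      intro j _
      unfold sgn
      split_ifs <;> norm_num
    rw [Finset.sum_congr rfl h3, Finset.sum_sub_distrib, ← Finset.mul_sum, ← Finset.sum_filter,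
      Finset.sum_const, Finset.sum_const, nsmul_eq_mul, nsmul_eq_mul, mul_one, mul_one, hFcR,
      Finset.filter_mem_eq_inter]
  have hc2' : (D : ℝ) * (F.card + 1 - D) ≤ c ^ 2 := by
    rw [hFcR]
    calc (D : ℝ) * ((n : ℝ) - 1 + 1 - D) = D * (n - D) := by ring
      _ ≤ c ^ 2 := hc2
  by_cases h4 : 2 * c ≤ ∑ j ∈ F, sgn S j
  · have := es_nonneg F (sgn S) hσ hc (by omega) hc2' h4
    linarith
  by_cases h5 : 2 * c ≤ -∑ j ∈ F, sgn S j
  · have h6 : 2 * c ≤ ∑ j ∈ F, -sgn S j := by rw [Finset.sum_neg_distrib]; exact h5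
    have := es_nonneg F (fun j => -sgn S j) (fun j hj => by
      have := hσ j hj
      linarith) hc (by omega) hc2' h6
    rw [es_neg F (sgn S) hD] at this
    linarith
  push Not at h4 h5
  have h6 : |((n : ℝ) - 1) - 2 * (F ∩ S).card| < 2 * c := by
    rw [← hsum, abs_lt]
    constructor <;> linarith
  have h7 := hx _ hxle h6
  rw [es_eq_kc, hFc]
  have h8 := kc_sq (n - 1) (F ∩ S).card D
  have h9 : (0 : ℝ) < ((n - 1).choose (F ∩ S).card : ℝ) := by
    exact_mod_cast Nat.choose_pos hxle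
  have h10 : kc (n - 1) (F ∩ S).card D ^ 2 ≤ R ^ 2 := by
    have : ((n - 1).choose (F ∩ S).card : ℝ) * kc (n - 1) (F ∩ S).card D ^ 2 ≤
        ((n - 1).choose (F ∩ S).card : ℝ) * R ^ 2 := by linarith
    exact le_of_mul_le_mul_left this h9
  exact (abs_le_of_sq_le_sq' h10 hR0).1

end Run7.h933.EOS
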