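import Pool.Agent.Run7.h933.EOS.Cube

/-!
# Pairs of near words in subsets of a ball
-/

set_option autoImplicit false

open Finset

namespace Run7.h933.EOS

lemma dist_sum {n : ℕ} (x y : Fin n → Bool) :
    hammingDist x y = ∑ i, (if x i ≠ y i then 1 else 0) := by
  unfold hammingDist
  rw [Finset.card_filter]

/-- the generating function of two distances -/
lemma gen {n : ℕ} (u v : Fin n → Bool) (x : ℝ) :
    ∑ w : Fin n → Bool, x ^ (hammingDist v w + hammingDist u w) =
      (2 * x) ^ hammingDist u v * (1 + x ^ 2) ^ (n - hammingDist u v) := by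
  have h1 : ∀ w : Fin n → Bool, x ^ (hammingDist v w + hammingDist u w) =
      ∏ i, x ^ ((if v i ≠ w i then 1 else 0) + (if u i ≠ w i then 1 else 0)) := by
    intro w
    rw [Finset.prod_pow_eq_pow_sum, Finset.sum_add_distrib, ← dist_sum, ← dist_sum]
  simp only [h1]
  have h2 := Finset.prod_univ_sum (fun _ : Fin n => (univ : Finset Bool))
    (fun i b => x ^ ((if v i ≠ b then 1 else 0) + (if u i ≠ b then 1 else 0)))
  rw [Fintype.piFinset_univ] at h2
  rw [← h2]
  have h3 : ∀ i : Fin n, ∑ b : Bool, x ^ ((if v i ≠ b then 1 else 0) + (if u i ≠ b then 1 else 0)) =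
      if u i ≠ v i then 2 * x else 1 + x ^ 2 := by
    intro i
    rw [Fintype.sum_bool]
    cases v i <;> cases u i <;> norm_num <;> ring
  simp only [h3]
  rw [Finset.prod_ite, prod_const, prod_const]
  have h4 : ((univ : Finset (Fin n)).filter fun i => u i ≠ v i).card = hammingDist u v := rfl
  have h5 := Finset.card_filter_add_card_filter_not (s := (univ : Finset (Fin n)))
    (fun i => u i ≠ v i)
  rw [h4, Finset.card_univ, Fintype.card_fin] at h5
  have h6 : ((univ : Finset (Fin n)).filter fun i => ¬ u i ≠ v i).card = n - hammingDist u v := by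
    omega
  rw [h4, h6]

/-- the number of words near to `v` and to `u` -/
lemma inter_card {n D : ℕ} (hDn : D ≤ n) (u v : Fin n → Bool) (huv : hammingDist u v ≤ D) {x : ℝ}
    (hx : 0 < x) (hx1 : x ≤ 1) :
    ((univ.filter fun w : Fin n → Bool => hammingDist u w ≤ D ∧
      hammingDist v w ≤ hammingDist v u).card : ℝ) ≤ 2 ^ D * (1 + x ^ 2) ^ (n - D) / x ^ D := by
  set j := hammingDist u v with hj
  have h1 : ((univ.filter fun w : Fin n → Bool => hammingDist u w ≤ D ∧
      hammingDist v w ≤ hammingDist v u).card : ℝ) * x ^ (j + D) ≤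
      (2 * x) ^ j * (1 + x ^ 2) ^ (n - j) := by
    rw [← gen, ← nsmul_eq_mul, ← Finset.sum_const]
    refine le_trans (Finset.sum_le_sum ?_) (Finset.sum_le_sum_of_subset_of_nonneg
      (Finset.filter_subset _ _) fun _ _ _ => by positivity)
    intro w hw
    rw [mem_filter] at hw
    refine pow_le_pow_of_le_one hx.le hx1 ?_
    have := hw.2.2
    rw [hammingDist_comm v u, ← hj] at this
    omega
  have hx0 : 0 < x ^ j := by positivity
  have h2 : ((univ.filter fun w : Fin n → Bool => hammingDist u w ≤ D ∧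
      hammingDist v w ≤ hammingDist v u).card : ℝ) * x ^ D ≤ 2 ^ j * (1 + x ^ 2) ^ (n - j) := by
    refine le_of_mul_le_mul_left ?_ hx0
    calc x ^ j * (((univ.filter fun w : Fin n → Bool => hammingDist u w ≤ D ∧
          hammingDist v w ≤ hammingDist v u).card : ℝ) * x ^ D)
        = ((univ.filter fun w : Fin n → Bool => hammingDist u w ≤ D ∧
          hammingDist v w ≤ hammingDist v u).card : ℝ) * x ^ (j + D) := by rw [pow_add]; ring
      _ ≤ (2 * x) ^ j * (1 + x ^ 2) ^ (n - j) := h1
      _ = x ^ j * (2 ^ j * (1 + x ^ 2) ^ (n - j)) := by rw [mul_pow]; ring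
  have h3 : (2 : ℝ) ^ j * (1 + x ^ 2) ^ (n - j) ≤ 2 ^ D * (1 + x ^ 2) ^ (n - D) := by
    have e1 : n - j = (D - j) + (n - D) := by omega
    have e2 : (2 : ℝ) ^ D = 2 ^ j * 2 ^ (D - j) := by rw [← pow_add]; congr 1; omega
    rw [e1, pow_add, e2]
    have h4 : (1 + x ^ 2) ^ (D - j) ≤ (2 : ℝ) ^ (D - j) := by
      refine pow_le_pow_left₀ (by positivity) ?_ _
      nlinarith
    calc (2 : ℝ) ^ j * ((1 + x ^ 2) ^ (D - j) * (1 + x ^ 2) ^ (n - D))
        ≤ (2 : ℝ) ^ j * (2 ^ (D - j) * (1 + x ^ 2) ^ (n - D)) := by gcongr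
      _ = _ := by ring
  rw [le_div_iff₀ (by positivity)]
  linarith

/-- **Local sparsity.** -/
theorem sparse {n D : ℕ} (hDn : D ≤ n) {x : ℝ} (hx : 0 < x) (hx1 : x ≤ 1) (v : Fin n → Bool)
    (U : Finset (Fin n → Bool)) (hU : U ⊆ ball n D v) :
    ∑ u ∈ U, ((U ∩ ball n D u).card : ℝ) ≤
      2 * (2 ^ D * (1 + x ^ 2) ^ (n - D) / x ^ D) * U.card := by
  set μ : ℝ := 2 ^ D * (1 + x ^ 2) ^ (n - D) / x ^ D with hμ
  -- the two kinds of pairs
  have e : ∀ u, ((U ∩ ball n D u).card : ℝ) ≤
      ∑ w ∈ U, (if hammingDist u w ≤ D ∧ hammingDist v w ≤ hammingDist v u then (1 : ℝ) else 0) +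
      ∑ w ∈ U, (if hammingDist u w ≤ D ∧ hammingDist v u ≤ hammingDist v w then (1 : ℝ) else 0) := by
    intro u
    have h1 : ((U ∩ ball n D u).card : ℝ) = ∑ w ∈ U, if hammingDist u w ≤ D then (1 : ℝ) else 0 := by
      rw [← Finset.sum_filter, Finset.sum_const, nsmul_eq_mul, mul_one]
      congr 2
      ext w
      rw [mem_inter, mem_filter, mem_ball]
    rw [h1, ← Finset.sum_add_distrib]
    refine Finset.sum_le_sum fun w _ => ?_
    by_cases h2 : hammingDist u w ≤ D
    · rcases le_total (hammingDist v w) (hammingDist v u) with h3 | h3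
      · simp only [h2, h3, and_self, if_true]
        split_ifs <;> norm_num
      · simp only [h2, h3, and_self, if_true]
        split_ifs <;> norm_num
    · simp [h2]
  have h1 : ∀ u ∈ U, ∑ w ∈ U,
      (if hammingDist u w ≤ D ∧ hammingDist v w ≤ hammingDist v u then (1 : ℝ) else 0) ≤ μ := by
    intro u hu
    have huv : hammingDist u v ≤ D := by
      have := mem_ball.1 (hU hu)
      rwa [hammingDist_comm]
    refine le_trans ?_ (inter_card hDn u v huv hx hx1)
    rw [← Finset.sum_filter, Finset.sum_const, nsmul_eq_mul, mul_one]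
    exact_mod_cast Finset.card_le_card (Finset.filter_subset_filter _ (Finset.subset_univ U))
  have h2 := Finset.sum_le_sum fun u (_ : u ∈ U) => e u
  rw [Finset.sum_add_distrib] at h2
  have h3 : ∑ u ∈ U, ∑ w ∈ U,
      (if hammingDist u w ≤ D ∧ hammingDist v u ≤ hammingDist v w then (1 : ℝ) else 0) =
      ∑ u ∈ U, ∑ w ∈ U,
      (if hammingDist u w ≤ D ∧ hammingDist v w ≤ hammingDist v u then (1 : ℝ) else 0) := by
    rw [Finset.sum_comm]
    refine Finset.sum_congr rfl fun u _ => Finset.sum_congr rfl fun w _ => ?_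
    rw [hammingDist_comm w u]
  rw [h3] at h2
  have h4 := Finset.sum_le_sum h1
  rw [Finset.sum_const, nsmul_eq_mul] at h4
  linarith

end Run7.h933.EOS
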