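import Pool.Agent.Run7.h933.EOS.Gas

/-!
# The lower bound of the mean number
-/

set_option autoImplicit false

open Finset

namespace Run7.h933.EOS

variable {V : Type*} [DecidableEq V] {B : V → Finset V} {lam : ℝ}

/-- the points of `A` which are free for the configuration `O` -/
def free (B : V → Finset V) (A O : Finset V) : Finset V := A.filter fun u => ∀ o ∈ O, u ∉ B o

lemma mem_free {A O : Finset V} {u : V} : u ∈ free B A O ↔ u ∈ A ∧ ∀ o ∈ O, u ∉ B o := by
  unfold free
  rw [mem_filter]

lemma free_subset (A O : Finset V) : free B A O ⊆ A := by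
  unfold free
  exact Finset.filter_subset _ _

variable [Fintype V]

/-- the independent sets through their parts outside and inside `A` -/
lemma split (hB : Nb B) (A : Finset V) (f : Finset V → ℝ) :
    ∑ I ∈ fam B univ, f I =
      ∑ O ∈ fam B (univ \ A), ∑ J ∈ fam B (free B A O), f (O ∪ J) := by
  have hmap : ∀ I ∈ fam B univ, I \ A ∈ fam B (univ \ A) := by
    intro I hI
    rw [mem_fam] at hI ⊢
    exact ⟨Finset.sdiff_subset_sdiff (Finset.subset_univ _) le_rfl, hI.2.mono Finset.sdiff_subset⟩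
  rw [← Finset.sum_fiberwise_of_maps_to hmap]
  refine Finset.sum_congr rfl fun O hO => ?_
  rw [mem_fam] at hO
  have hdisj : ∀ x ∈ O, x ∉ A := fun x hx => (mem_sdiff.1 (hO.1 hx)).2
  symm
  refine Finset.sum_bij (fun J _ => O ∪ J) ?_ ?_ ?_ ?_
  · intro J hJ
    rw [mem_fam] at hJ
    have hJA : ∀ x ∈ J, x ∈ A := fun x hx => (mem_free.1 (hJ.1 hx)).1
    have hJO : ∀ x ∈ J, ∀ o ∈ O, x ∉ B o := fun x hx => (mem_free.1 (hJ.1 hx)).2
    rw [mem_filter, mem_fam]
    refine ⟨⟨Finset.subset_univ _, ?_⟩, ?_⟩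
    · intro x hx y hy hxy
      rw [mem_union] at hx hy
      rcases hx with hx | hx <;> rcases hy with hy | hy
      · exact hO.2 x hx y hy hxy
      · exact hJO y hy x hx
      · intro h
        exact hJO x hx y hy (hB.symm _ _ h)
      · exact hJ.2 x hx y hy hxy
    · ext x
      rw [mem_sdiff, mem_union]
      constructor
      · rintro ⟨h1 | h1, h2⟩
        · exact h1
        · exact absurd (hJA x h1) h2
      · intro h
        exact ⟨Or.inl h, hdisj x h⟩
  · intro J hJ J' hJ' h
    rw [mem_fam] at hJ hJ'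
    have h' : O ∪ J = O ∪ J' := h
    have aux : ∀ L : Finset V, L ⊆ free B A O → (O ∪ L).filter (fun x => x ∈ A) = L := by
      intro L hL
      ext x
      rw [mem_filter, mem_union]
      constructor
      · rintro ⟨h1 | h1, h2⟩
        · exact absurd h2 (hdisj x h1)
        · exact h1
      · intro h1
        exact ⟨Or.inr h1, (mem_free.1 (hL h1)).1⟩
    rw [← aux J hJ.1, h', aux J' hJ'.1]
  · intro I hI
    rw [mem_filter, mem_fam] at hI
    obtain ⟨⟨-, h1⟩, h2⟩ := hI
    refine ⟨I.filter (fun x => x ∈ A), ?_, ?_⟩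
    · rw [mem_fam]
      refine ⟨?_, h1.mono (Finset.filter_subset _ _)⟩
      intro x hx
      rw [mem_filter] at hx
      rw [mem_free]
      refine ⟨hx.2, fun o ho => ?_⟩
      have ho' : o ∈ I \ A := by rw [h2]; exact ho
      rw [mem_sdiff] at ho'
      exact h1 o ho'.1 x hx.1 (by rintro rfl; exact ho'.2 hx.2)
    · rw [← h2]
      ext x
      simp only [mem_union, mem_sdiff, mem_filter]
      tauto
  · intro J _
    rfl

lemma split_card {A O J : Finset V} (hO : O ∈ fam B (univ \ A)) (hJ : J ∈ fam B (free B A O)) :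
    (O ∪ J).card = O.card + J.card ∧ (O ∪ J) ∩ A = J := by
  rw [mem_fam] at hO hJ
  have hdisj : ∀ x ∈ O, x ∉ A := fun x hx => (mem_sdiff.1 (hO.1 hx)).2
  have hJA : ∀ x ∈ J, x ∈ A := fun x hx => (mem_free.1 (hJ.1 hx)).1
  constructor
  · refine Finset.card_union_of_disjoint ?_
    rw [Finset.disjoint_left]
    intro x hx hx'
    exact hdisj x hx (hJA x hx')
  · ext x
    rw [mem_inter, mem_union]
    constructor
    · rintro ⟨h1 | h1, h2⟩
      · exact absurd h2 (hdisj x h1)
      · exact h1
    · intro h1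
      exact ⟨Or.inr h1, hJA x h1⟩

lemma Z_split (hB : Nb B) (A : Finset V) :
    Z B lam univ = ∑ O ∈ fam B (univ \ A), lam ^ O.card * Z B lam (free B A O) := by
  unfold Z
  rw [split hB A]
  refine Finset.sum_congr rfl fun O hO => ?_
  rw [Finset.mul_sum]
  refine Finset.sum_congr rfl fun J hJ => ?_
  rw [(split_card hO hJ).1, pow_add]

lemma M_split (hB : Nb B) (A : Finset V) :
    ∑ I ∈ fam B univ, ((I ∩ A).card : ℝ) * lam ^ I.card =
      ∑ O ∈ fam B (univ \ A), lam ^ O.card * M B lam (free B A O) := by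
  unfold M
  rw [split hB A]
  refine Finset.sum_congr rfl fun O hO => ?_
  rw [Finset.mul_sum]
  refine Finset.sum_congr rfl fun J hJ => ?_
  rw [(split_card hO hJ).1, (split_card hO hJ).2, pow_add]
  ring

/-- the mean number in the neighbourhood of `v` -/
lemma one_vertex (hB : Nb B) (hl : 0 < lam) {K c : ℝ} (hc : 0 < c) (hlK : lam * K ≤ 1) (v : V)
    (hsp : ∀ U ⊆ B v, ∑ u ∈ U, ((U ∩ B u).card : ℝ) ≤ K * U.card) :
    (1 - lam * K) * ((1 - Real.log c) * Z B lam univ - 1 / c * Z B lam (univ \ B v)) ≤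
      ∑ I ∈ fam B univ, ((I ∩ B v).card : ℝ) * lam ^ I.card := by
  rw [M_split hB (B v), Z_split hB (B v)]
  have e : Z B lam (univ \ B v) = ∑ O ∈ fam B (univ \ B v), lam ^ O.card := rfl
  rw [e, Finset.mul_sum, Finset.mul_sum, ← Finset.sum_sub_distrib, Finset.mul_sum]
  refine Finset.sum_le_sum fun O _ => ?_
  set F := free B (B v) O with hF
  have hFs : F ⊆ B v := free_subset _ _
  have hZ := Z_pos (B := B) hl.le F
  have h1 := M_ge_log hB hl.le F K (hsp F hFs) hlK
  have h2 : 1 - Real.log c - 1 / (c * Z B lam F) ≤ Real.log (Z B lam F) := by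
    have h3 := Real.one_sub_inv_le_log_of_pos (show 0 < c * Z B lam F by positivity)
    rw [Real.log_mul hc.ne' hZ.ne'] at h3
    rw [one_div]
    linarith
  have h3 : (1 - lam * K) * ((1 - Real.log c) * Z B lam F - 1 / c) ≤ M B lam F := by
    refine le_trans ?_ h1
    have h4 : (1 - Real.log c) * Z B lam F - 1 / c =
        (1 - Real.log c - 1 / (c * Z B lam F)) * Z B lam F := by
      field_simp
    rw [h4, mul_assoc]
    refine mul_le_mul_of_nonneg_left ?_ (by linarith)
    exact mul_le_mul_of_nonneg_right h2 hZ.le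
  calc (1 - lam * K) * ((1 - Real.log c) * (lam ^ O.card * Z B lam F) - 1 / c * lam ^ O.card)
      = lam ^ O.card * ((1 - lam * K) * ((1 - Real.log c) * Z B lam F - 1 / c)) := by ring
    _ ≤ lam ^ O.card * M B lam F := mul_le_mul_of_nonneg_left h3 (by positivity)

/-- **The lower bound.** -/
theorem lower_log [Nonempty V] (hB : Nb B) (hl : 0 < lam) {D N K : ℝ} (hD : 0 < D)
    (hcard : ∀ v, ((B v).card : ℝ) = D) (hN : N = Fintype.card V) (hlK : lam * K ≤ 1)
    (hsp : ∀ v, ∀ U ⊆ B v, ∑ u ∈ U, ((U ∩ B u).card : ℝ) ≤ K * U.card) :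
    0 < D / N * (M B lam univ / Z B lam univ) ∧
    (1 - lam * K) * Real.log (lam * D / (D / N * (M B lam univ / Z B lam univ))) ≤
      D / N * (M B lam univ / Z B lam univ) := by
  have hN0 : 0 < N := by rw [hN]; exact_mod_cast Fintype.card_pos
  have hZ := Z_pos (B := B) hl.le (univ : Finset V)
  have hM : 0 < M B lam univ := by
    rw [M_eq hB]
    refine mul_pos hl (Finset.sum_pos (fun v _ => Z_pos hl.le _) Finset.univ_nonempty)
  set y := D / N * (M B lam univ / Z B lam univ) with hy
  have hy0 : 0 < y := by positivity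
  refine ⟨hy0, ?_⟩
  set c := y / (lam * D) with hc
  have hc0 : 0 < c := by positivity
  have h1 := Finset.sum_le_sum fun v (_ : v ∈ (univ : Finset V)) =>
    one_vertex hB hl hc0 hlK v (hsp v)
  have e1 : ∑ v : V, ∑ I ∈ fam B univ, ((I ∩ B v).card : ℝ) * lam ^ I.card = D * M B lam univ := by
    rw [Finset.sum_comm]
    unfold M
    rw [Finset.mul_sum]
    refine Finset.sum_congr rfl fun I _ => ?_
    rw [← Finset.sum_mul]
    have : ∑ v : V, ((I ∩ B v).card : ℝ) = D * I.card := by
      have h2 : ∀ v : V, ((I ∩ B v).card : ℝ) = ∑ u ∈ I, if u ∈ B v then (1 : ℝ) else 0 := by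
        intro v
        rw [← Finset.sum_filter, Finset.sum_const, nsmul_eq_mul, mul_one, Finset.filter_mem_eq_inter]
      simp only [h2]
      rw [Finset.sum_comm]
      have h3 : ∀ u : V, ∑ v : V, (if u ∈ B v then (1 : ℝ) else 0) = D := by
        intro u
        rw [← Finset.sum_filter, Finset.sum_const, nsmul_eq_mul, mul_one, ← hcard u]
        congr 2
        ext v
        rw [mem_filter]
        exact ⟨fun h => hB.symm _ _ h.2, fun h => ⟨mem_univ _, hB.symm _ _ h⟩⟩
      simp only [h3]
      rw [Finset.sum_const, nsmul_eq_mul]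
      ring
    rw [this]
    ring
  rw [e1, ← Finset.mul_sum, Finset.sum_sub_distrib, Finset.sum_const, nsmul_eq_mul,
    Finset.card_univ, ← hN, ← Finset.mul_sum] at h1
  have e2 : ∑ v : V, Z B lam (univ \ B v) = M B lam univ / lam := by
    rw [M_eq hB]
    field_simp
  rw [e2] at h1
  have e3 : M B lam univ = y * N * Z B lam univ / D := by
    rw [hy]; field_simp
  rw [e3] at h1
  have e4 : (1 - lam * K) * (N * ((1 - Real.log c) * Z B lam univ) -
      1 / c * (y * N * Z B lam univ / D / lam)) =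
      (N * Z B lam univ) * ((1 - lam * K) * (-Real.log c)) := by
    have : 1 / c * (y * N * Z B lam univ / D / lam) = N * Z B lam univ := by
      rw [hc]; field_simp
    rw [this]
    ring
  have e5 : D * (y * N * Z B lam univ / D) = (N * Z B lam univ) * y := by field_simp
  rw [e4, e5] at h1
  have h2 := le_of_mul_le_mul_left h1 (by positivity)
  have e6 : -Real.log c = Real.log (lam * D / y) := by
    rw [hc, ← Real.log_inv, inv_div]
  rwa [e6] at h2

theorem lower [Nonempty V] (hB : Nb B) {D N K s : ℝ} (hs : 0 < s) (hD : 0 < D)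
    (hcard : ∀ v, ((B v).card : ℝ) = D) (hN : N = Fintype.card V)
    (hlK : s * Real.exp s / D * K ≤ 1) (hK : 0 ≤ K)
    (hsp : ∀ v, ∀ U ⊆ B v, ∑ u ∈ U, ((U ∩ B u).card : ℝ) ≤ K * U.card) :
    (1 - s * Real.exp s / D * K) * s ≤
      D / N * (M B (s * Real.exp s / D) univ / Z B (s * Real.exp s / D) univ) := by
  have hl : 0 < s * Real.exp s / D := by positivity
  obtain ⟨hy0, key⟩ := lower_log hB hl hD hcard hN hlK hsp
  set y := D / N * (M B (s * Real.exp s / D) univ / Z B (s * Real.exp s / D) univ) with hy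
  set δ := s * Real.exp s / D * K with hδ
  have hδ0 : 0 ≤ δ := by rw [hδ]; positivity
  have e : s * Real.exp s / D * D = s * Real.exp s := by field_simp
  rw [e] at key
  by_contra hcon
  push Not at hcon
  have h5 : 0 < 1 - δ := by
    by_contra h
    have : (1 - δ) * s ≤ 0 := mul_nonpos_of_nonpos_of_nonneg (not_lt.1 h) hs.le
    linarith
  have h6 : y < s := by nlinarith
  have h7 : s < Real.log (s * Real.exp s / y) := by
    rw [Real.lt_log_iff_exp_lt (by positivity), lt_div_iff₀ hy0]
    calc Real.exp s * y < Real.exp s * s := mul_lt_mul_of_pos_left h6 (Real.exp_pos s)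
      _ = s * Real.exp s := by ring
  have h8 : (1 - δ) * s < (1 - δ) * Real.log (s * Real.exp s / y) :=
    mul_lt_mul_of_pos_left h7 h5
  linarith

end Run7.h933.EOS
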