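import Pool.Agent.Run7.h933.EOS.Upper
import Pool.Agent.Run7.h933.EOS.Lower
import Pool.Agent.Run7.h933.EOS.KrawB
import Pool.Agent.Run7.h933.EOS.Loc
import Pool.Agent.Run7.h933.EOS.Asm
import Pool.Agent.Y570.LS.Ent

/-!
# The gas of the codes with minimum distance at least `2 t + 1`
-/

set_option autoImplicit false

open Finset

namespace Run7.h933.EOS

/-- the volume of the ball with radius `2 t` -/
noncomputable def Vol (n t : ℕ) : ℝ := ∑ j ∈ range (2 * t + 1), (n.choose j : ℝ)

/-- the partition function -/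
noncomputable def ZZ (n t : ℕ) (lam : ℝ) : ℝ := Z (ball n (2 * t)) lam univ

/-- the mean number of words -/
noncomputable def mean (n t : ℕ) (lam : ℝ) : ℝ := M (ball n (2 * t)) lam univ / ZZ n t lam

/-- the activity `s e ^ s / V` -/
noncomputable def act (n t : ℕ) (s : ℝ) : ℝ := s * Real.exp s / Vol n t

variable {n t : ℕ}

lemma vol_eq (x : Fin n → Bool) : ((ball n (2 * t) x).card : ℝ) = Vol n t := by
  rw [card_ball, card_ball_eq]
  rfl

lemma one_le_Vol (n t : ℕ) : 1 ≤ Vol n t := by
  unfold Vol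
  have h1 : ((n.choose 0 : ℕ) : ℝ) ≤ ∑ j ∈ range (2 * t + 1), (n.choose j : ℝ) :=
    Finset.single_le_sum (f := fun j => (n.choose j : ℝ)) (fun _ _ => by positivity)
      (mem_range.2 (by omega))
  simpa using h1

lemma Vol_pos (n t : ℕ) : 0 < Vol n t := lt_of_lt_of_le one_pos (one_le_Vol n t)

lemma choose_le_Vol (n t : ℕ) : (n.choose (2 * t) : ℝ) ≤ Vol n t := by
  unfold Vol
  exact Finset.single_le_sum (f := fun j => (n.choose j : ℝ)) (fun _ _ => by positivity)
    (mem_range.2 (by omega))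

lemma card_words (n : ℕ) : ((Fintype.card (Fin n → Bool) : ℕ) : ℝ) = 2 ^ n := by
  simp

lemma act_pos {s : ℝ} (hs : 0 < s) : 0 < act n t s := by
  have := Vol_pos n t
  unfold act
  positivity

lemma ZZ_ge_one {lam : ℝ} (hl : 0 ≤ lam) : 1 ≤ ZZ n t lam := one_le_Z hl _

lemma ZZ_pos {lam : ℝ} (hl : 0 ≤ lam) : 0 < ZZ n t lam := Z_pos hl _

lemma mean_pos {lam : ℝ} (hl : 0 < lam) : 0 < mean n t lam := by
  unfold mean
  refine div_pos ?_ (ZZ_pos hl.le)
  rw [M_eq (ball_nb n (2 * t))]
  exact mul_pos hl (Finset.sum_pos (fun v _ => Z_pos hl.le _) Finset.univ_nonempty)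

/-- the upper bound of the pressure -/
theorem pressure_le {ρ s : ℝ} (hρ : 0 ≤ ρ) (hs : 0 < s)
    (h : ∀ S : Finset (Fin n), S.Nonempty →
      -(ρ * Vol n t) ≤ Pool.Agent.R158.Walsh.hat (indf (ball n (2 * t) (zw n))) S) :
    Vol n t / 2 ^ n * Real.log (ZZ n t (act n t s)) ≤
      s + s ^ 2 / 2 + (ρ + 1 / Vol n t) * (s * Real.exp s) := by
  refine upper (ball_nb n (2 * t)) (Vol_pos n t) (by rw [card_words]) (by positivity) hρ hs ?_
  intro U
  have h1 := supersat (n := n) (D := 2 * t) hρ (by rw [vol_eq]; exact h) U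
  rwa [vol_eq] at h1

/-- the constant of the local bound -/
noncomputable def KK (n t : ℕ) (x : ℝ) : ℝ :=
  2 * (2 ^ (2 * t) * (1 + x ^ 2) ^ (n - 2 * t) / x ^ (2 * t))

/-- the lower bound of the mean number of words -/
theorem mean_ge (ht : 2 * t ≤ n) {x s K : ℝ} (hx : 0 < x) (hx1 : x ≤ 1) (hK : KK n t x ≤ K)
    (hs : 0 < s) (h1 : K / Vol n t * (s * Real.exp s) ≤ 1) :
    (1 - K / Vol n t * (s * Real.exp s)) * s ≤
      Vol n t / 2 ^ n * mean n t (act n t s) := by
  have hK0 : 0 ≤ K := by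
    refine le_trans ?_ hK
    unfold KK
    positivity
  have e : s * Real.exp s / Vol n t * K = K / Vol n t * (s * Real.exp s) := by ring
  have h2 := lower (ball_nb n (2 * t)) (D := Vol n t) (N := 2 ^ n) (K := K) hs (Vol_pos n t)
    (fun v => vol_eq v) (by rw [card_words]) (by rw [e]; exact h1) hK0
    (fun v U hU => by
      refine (sparse ht hx hx1 v U hU).trans ?_
      exact mul_le_mul_of_nonneg_right hK (by positivity))
  rw [e] at h2
  exact h2

/-- convexity in the parameter `s` -/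
theorem conv_act {a b : ℝ} (ha : 0 < a) (hb : 0 < b) :
    (Real.log (b / a) + (b - a)) * (Vol n t / 2 ^ n * mean n t (act n t a)) ≤
      Vol n t / 2 ^ n * Real.log (ZZ n t (act n t b)) -
        Vol n t / 2 ^ n * Real.log (ZZ n t (act n t a)) := by
  have hD := Vol_pos n t
  have hA := act_pos (n := n) (t := t) ha
  have hB := act_pos (n := n) (t := t) hb
  have e1 : Real.log (act n t b / act n t a) = Real.log (b / a) + (b - a) := by
    have : act n t b / act n t a = b / a * Real.exp (b - a) := by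
      unfold act
      rw [Real.exp_sub]
      field_simp
    rw [this, Real.log_mul (by positivity) (Real.exp_pos _).ne', Real.log_exp]
  have c1 := conv (B := ball n (2 * t)) hA hB univ
  rw [e1] at c1
  have h2 : 0 ≤ Vol n t / 2 ^ n := by positivity
  have := mul_le_mul_of_nonneg_left c1 h2
  unfold mean ZZ
  linarith

/-- the lower bound of the pressure -/
theorem pressure_ge (ht : 2 * t ≤ n) {x s K : ℝ} (hx : 0 < x) (hx1 : x ≤ 1) (hK : KK n t x ≤ K)
    (hs : 0 < s) (h1 : K / Vol n t * (s * Real.exp s) ≤ 1) :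
    (1 - K / Vol n t * (s * Real.exp s)) * (s + s ^ 2 / 2) ≤
      Vol n t / 2 ^ n * Real.log (ZZ n t (act n t s)) := by
  have hD := Vol_pos n t
  have hK0 : 0 ≤ K := by
    refine le_trans ?_ hK
    unfold KK
    positivity
  refine Pool.Agent.N490.HG.lower (y := fun s => Vol n t / 2 ^ n * mean n t (act n t s))
    (p := fun s => Vol n t / 2 ^ n * Real.log (ZZ n t (act n t s))) (W := s) (by positivity) h1
    ?_ ?_ ?_ hs le_rfl
  · intro w hw
    exact mul_nonneg (by positivity) (Real.log_nonneg (ZZ_ge_one (act_pos hw).le))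
  · intro w hw hws
    have h2 : K / Vol n t * (w * Real.exp w) ≤ K / Vol n t * (s * Real.exp s) := by
      have : w * Real.exp w ≤ s * Real.exp s :=
        mul_le_mul hws (Real.exp_le_exp.2 hws) (Real.exp_pos _).le hs.le
      exact mul_le_mul_of_nonneg_left this (by positivity)
    refine le_trans ?_ (mean_ge ht hx hx1 hK hw (h2.trans h1))
    exact mul_le_mul_of_nonneg_right (by linarith) hw.le
  · intro a b ha hab
    exact conv_act ha (lt_of_lt_of_le ha hab)

/-- the constant of the local bound in terms of the entropy function -/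
theorem KK_le {δ : ℝ} (h0 : 0 < δ) (h1 : δ ≤ 1 / 2) (ht : ((2 * t : ℕ) : ℝ) ≤ δ * n) :
    ∃ x : ℝ, 0 < x ∧ x ≤ 1 ∧ KK n t x ≤
      2 * Real.exp (n * (δ * Real.log 2 + (1 - δ) * Real.binEntropy (δ / (2 * (1 - δ))))) := by
  have hD : 0 < 2 - 3 * δ := by linarith
  have hD1 : 0 < 1 - δ := by linarith
  obtain ⟨q, hq⟩ : ∃ q : ℝ, q = δ / (2 - 3 * δ) := ⟨_, rfl⟩
  have hq0 : 0 < q := by rw [hq]; positivity
  have hq1 : q ≤ 1 := by rw [hq, div_le_one hD]; linarith
  have hn : (2 * t : ℕ) ≤ n := by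
    have : ((2 * t : ℕ) : ℝ) ≤ n := by
      have hn0 : (0 : ℝ) ≤ n := Nat.cast_nonneg n
      nlinarith
    exact_mod_cast this
  refine ⟨√q, Real.sqrt_pos.2 hq0, Real.sqrt_le_one.mpr hq1, ?_⟩
  unfold KK
  refine mul_le_mul_of_nonneg_left ?_ (by norm_num)
  have e1 : √q ^ (2 * t) = q ^ t := by rw [pow_mul, Real.sq_sqrt hq0.le]
  rw [Real.sq_sqrt hq0.le, e1, ← Real.log_le_iff_le_exp (by positivity),
    Real.log_div (by positivity) (by positivity), Real.log_mul (by positivity) (by positivity),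
    Real.log_pow, Real.log_pow, Real.log_pow, Nat.cast_sub hn]
  -- the optimal value
  have e2 : δ * Real.log 2 + (1 - δ) * Real.binEntropy (δ / (2 * (1 - δ))) =
      δ * Real.log 2 + (1 - δ) * Real.log (1 + q) - δ / 2 * Real.log q := by
    have a1 : 1 - δ / (2 * (1 - δ)) = (2 - 3 * δ) / (2 * (1 - δ)) := by
      field_simp
      ring
    have a2 : 1 + q = 2 * (1 - δ) / (2 - 3 * δ) := by
      rw [hq, eq_div_iff hD.ne', add_mul, div_mul_cancel₀ _ hD.ne']
      ring
    unfold Real.binEntropy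
    rw [a1, a2, hq, Real.log_inv, Real.log_inv, Real.log_div h0.ne' (by positivity),
      Real.log_div hD.ne' (by positivity), Real.log_div (by positivity) hD.ne',
      Real.log_div h0.ne' hD.ne']
    field_simp
    ring
  rw [e2]
  push_cast at ht ⊢
  have hc : 0 ≤ Real.log 2 - Real.log (1 + q) - 1 / 2 * Real.log q := by
    have b1 : Real.log (1 + q) ≤ Real.log 2 := Real.log_le_log (by positivity) (by linarith)
    have b2 : Real.log q ≤ 0 := Real.log_nonpos hq0.le hq1
    linarith
  have h2 := mul_le_mul_of_nonneg_right ht hc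
  nlinarith

end Run7.h933.EOS
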