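import Pool.Agent.Run7.h933.EOS.Rate

/-!
# Odd and even minimum distances, limits superior
-/

set_option autoImplicit false

open Finset Filter Topology

namespace Run7.h933.EOS

/-- the distance and the weights have the same parity -/
lemma dist_parity {n : ℕ} (x y : Fin n → Bool) :
    hammingDist x y + 2 * ((supp x) ∩ (supp y)).card = (supp x).card + (supp y).card := by
  have h1 : hammingDist x y = ((supp x) \ (supp y)).card + ((supp y) \ (supp x)).card := by
    rw [← Finset.card_union_of_disjoint]
    · unfold hammingDist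
      congr 1
      ext i
      simp only [mem_filter, mem_univ, true_and, mem_union, mem_sdiff, supp]
      cases hx : x i <;> cases hy : y i <;> simp [hx, hy]
    · rw [Finset.disjoint_left]
      intro i hi hi'
      exact (mem_sdiff.1 hi').2 (mem_sdiff.1 hi).1
  have h2 := Finset.card_sdiff_add_card_inter (supp x) (supp y)
  have h3 := Finset.card_sdiff_add_card_inter (supp y) (supp x)
  rw [Finset.inter_comm (supp y)] at h3
  omega

/-- half of a code with odd minimum distance has a larger minimum distance -/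
theorem half_code {n t : ℕ} (C : Finset (Fin n → Bool))
    (hC : ∀ x ∈ C, ∀ y ∈ C, x ≠ y → 2 * t + 1 ≤ hammingDist x y) :
    ∃ C' ⊆ C, (∀ x ∈ C', ∀ y ∈ C', x ≠ y → 2 * t + 2 ≤ hammingDist x y) ∧
      C.card ≤ 2 * C'.card := by
  have key : ∀ x ∈ C, ∀ y ∈ C, x ≠ y → (Even (supp x).card ↔ Even (supp y).card) →
      2 * t + 2 ≤ hammingDist x y := by
    intro x hx y hy hxy h
    have h1 := hC x hx y hy hxy
    have h2 := dist_parity x y
    have h3 : Even (hammingDist x y) := by
      have h4 : Even ((supp x).card + (supp y).card) := Nat.even_add.2 h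
      rw [← h2] at h4
      exact (Nat.even_add.1 h4).2 (even_two_mul _)
    obtain ⟨r, hr⟩ := h3
    omega
  have hsplit := Finset.card_filter_add_card_filter_not (s := C) (fun x => Even (supp x).card)
  rcases le_total (C.filter fun x => Even (supp x).card).card
    (C.filter fun x => ¬ Even (supp x).card).card with h | h
  · refine ⟨C.filter fun x => ¬ Even (supp x).card, Finset.filter_subset _ _, ?_, by omega⟩
    intro x hx y hy hxy
    rw [mem_filter] at hx hy
    exact key x hx.1 y hy.1 hxy (iff_of_false hx.2 hy.2)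
  · refine ⟨C.filter fun x => Even (supp x).card, Finset.filter_subset _ _, ?_, by omega⟩
    intro x hx y hy hxy
    rw [mem_filter] at hx hy
    exact key x hx.1 y hy.1 hxy (iff_of_true hx.2 hy.2)

lemma ceil_cases {δ : ℝ} (h0 : 0 < δ) {n : ℕ} (hn : 1 ≤ n) :
    ⌈δ * n⌉₊ = 2 * tn δ n + 1 ∨ ⌈δ * n⌉₊ = 2 * tn δ n + 2 := by
  have hn0 : (0 : ℝ) < n := by exact_mod_cast hn
  have h2 : 1 ≤ ⌈δ * n⌉₊ := Nat.one_le_ceil_iff.2 (by positivity)
  unfold tn
  omega

/-- limits superior of close sequences -/
theorem limsup_close {u v : ℕ → ℝ} {a b : ℝ} (hu : ∀ᶠ n in atTop, a ≤ u n ∧ u n ≤ b)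
    (hv : ∀ᶠ n in atTop, a ≤ v n ∧ v n ≤ b)
    (h : ∀ ε : ℝ, 0 < ε → ∀ᶠ n in atTop, u n ≤ v n + ε) :
    limsup u atTop ≤ limsup v atTop ∧ liminf u atTop ≤ liminf v atTop := by
  have hu1 : IsBoundedUnder (· ≤ ·) atTop u :=
    isBoundedUnder_of_eventually_le (a := b) (hu.mono fun _ h => h.2)
  have hu2 : IsBoundedUnder (· ≥ ·) atTop u :=
    isBoundedUnder_of_eventually_ge (a := a) (hu.mono fun _ h => h.1)
  have hv1 : IsBoundedUnder (· ≤ ·) atTop v :=
    isBoundedUnder_of_eventually_le (a := b) (hv.mono fun _ h => h.2)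
  have hv2 : IsBoundedUnder (· ≥ ·) atTop v :=
    isBoundedUnder_of_eventually_ge (a := a) (hv.mono fun _ h => h.1)
  constructor
  · refine le_of_forall_pos_le_add fun ε hε => ?_
    refine limsup_le_of_le hu2.isCoboundedUnder_le ?_
    have h1 : ∀ᶠ n in atTop, v n < limsup v atTop + ε / 2 :=
      eventually_lt_of_limsup_lt (by linarith) hv1
    filter_upwards [h (ε / 2) (by positivity), h1] with n h2 h3
    linarith
  · refine le_of_forall_pos_le_add fun ε hε => ?_
    have h1 : ∃ᶠ n in atTop, v n < liminf v atTop + ε / 2 :=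
      frequently_lt_of_liminf_lt hv1.isCoboundedUnder_ge (by linarith)
    refine liminf_le_of_frequently_le ?_ hu2
    refine (h1.and_eventually (h (ε / 2) (by positivity))).mono ?_
    rintro n ⟨h2, h3⟩
    linarith

end Run7.h933.EOS
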