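import Pool.Agent.Run7.h933.EOS.Canon

/-!
# Exponents of the mean size
-/

set_option autoImplicit false

open Finset Filter Topology

namespace Run7.h933.EOS

variable {δ : ℝ} {n t : ℕ}

/-- the mean size increases with the activity -/
lemma mean_mono {a b : ℝ} (ha : 0 < a) (hab : a ≤ b) : mean n t a ≤ mean n t b := by
  have hb : 0 < b := lt_of_lt_of_le ha hab
  rcases hab.eq_or_lt with h | h
  · rw [h]
  have h1 := conv (B := ball n (2 * t)) ha hb univ
  have h2 := conv (B := ball n (2 * t)) hb ha univ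
  have h3 : Real.log (a / b) = -Real.log (b / a) := by
    rw [← Real.log_inv, inv_div]
  rw [h3] at h2
  have h4 : 0 < Real.log (b / a) := Real.log_pos (by rw [lt_div_iff₀ ha]; linarith)
  have h5 : Real.log (b / a) * mean n t a ≤ Real.log (b / a) * mean n t b := by
    unfold mean ZZ
    linarith
  exact le_of_mul_le_mul_left h5 h4

/-- the mean size at the activity `e ^ (x n) / V` -/
noncomputable def mx (δ x : ℝ) (n : ℕ) : ℝ :=
  mean n (tn δ n) (Real.exp (x * n) / Vol n (tn δ n))

lemma mx_pos (δ x : ℝ) (n : ℕ) : 0 < mx δ x n :=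
  mean_pos (div_pos (Real.exp_pos _) (Vol_pos _ _))

lemma act_eq {s L : ℝ} (hse : s * Real.exp s = L) : act n t s = L / Vol n t := by
  unfold act
  rw [hse]

/-- the asymptotics of the mean size -/
theorem mx_asymp (h0 : 0 < δ) (h1 : δ < 1 / 2) {x : ℝ} (hx : 0 < x) (hxc : x < cE δ) :
    Tendsto (fun n : ℕ => Vol n (tn δ n) / 2 ^ n * mx δ x n / n) atTop (𝓝 x) := by
  rw [Metric.tendsto_atTop]
  intro e he
  have hc1 : cE δ ≤ 1 := by
    have := lE_le h0 h1
    have := bin_lt_one δ
    have : cE δ ≤ lE δ := min_le_left _ _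
    linarith
  obtain ⟨ε, hε⟩ : ∃ ε : ℝ, ε = min (e / 4) (cE δ - x) := ⟨_, rfl⟩
  have hε0 : 0 < ε := by rw [hε]; exact lt_min (by linarith) (by linarith)
  have hε1 : ε ≤ e / 4 := by rw [hε]; exact min_le_left _ _
  have hε2 : ε ≤ cE δ - x := by rw [hε]; exact min_le_right _ _
  have hev : ∀ᶠ n : ℕ in atTop, Real.log n + 1 ≤ e / 4 * n := by
    have h2 : Tendsto (fun n : ℕ => Real.log n / n) atTop (𝓝 0) :=
      Real.isLittleO_log_id_atTop.tendsto_div_nhds_zero.comp tendsto_natCast_atTop_atTop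
    have h3 : Tendsto (fun n : ℕ => 1 / (n : ℝ)) atTop (𝓝 0) := tendsto_const_div_atTop_nhds_zero_nat 1
    have h4 := h2.add h3
    rw [add_zero] at h4
    filter_upwards [h4.eventually_le_const (show (0 : ℝ) < e / 4 by positivity),
      eventually_ge_atTop 1] with n a1 a2
    have hn0 : (0 : ℝ) < n := by exact_mod_cast a2
    rw [← add_div, div_le_iff₀ hn0] at a1
    exact a1
  obtain ⟨n₀, hn₀⟩ := eventually_atTop.1 ((state h0 h1 hε0).and (hev.and (eventually_ge_atTop 1)))
  refine ⟨n₀, fun n hn => ?_⟩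
  obtain ⟨a1, a2, a3⟩ := hn₀ n hn
  have hn0 : (0 : ℝ) < n := by exact_mod_cast a3
  have hnR : (1 : ℝ) ≤ n := by exact_mod_cast a3
  obtain ⟨s, hs, hse⟩ := exists_W (Real.exp (x * n)) (Real.exp_pos _)
  obtain ⟨h3, -⟩ := a1 s hs (by
    rw [hse]
    apply Real.exp_le_exp.2
    exact mul_le_mul_of_nonneg_right (by linarith) hn0.le)
  rw [act_eq hse] at h3
  change |Vol n (tn δ n) / 2 ^ n * mx δ x n - s| ≤ ε * s at h3
  set y := Vol n (tn δ n) / 2 ^ n * mx δ x n with hy
  -- `s` and `x n`
  have hlogs : Real.log s + s = x * n := by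
    have := congrArg Real.log hse
    rwa [Real.log_mul hs.ne' (Real.exp_pos _).ne', Real.log_exp, Real.log_exp] at this
  have hxn : x * n ≤ n := by nlinarith
  have hxn0 : 0 ≤ x * n := by positivity
  have hsn : s ≤ n := by
    by_contra hcon
    push Not at hcon
    have h5 : 0 < Real.log s := Real.log_pos (by linarith)
    linarith
  have hs2 : 1 / 2 ≤ s := by
    by_contra hcon
    push Not at hcon
    have h7 : Real.log s ≤ Real.log (1 / 2) := Real.log_le_log hs hcon.le
    rw [one_div, Real.log_inv] at h7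
    have := Real.log_two_gt_d9
    linarith
  have h5 : |s - x * n| ≤ Real.log n + 1 := by
    have h6 : s - x * n = -Real.log s := by linarith
    rw [h6, abs_neg, abs_le]
    constructor
    · have h7 : Real.log (1 / 2) ≤ Real.log s := Real.log_le_log (by norm_num) hs2
      rw [one_div, Real.log_inv] at h7
      have h8 := Real.log_two_lt_d9
      have h9 : 0 ≤ Real.log n := Real.log_nonneg hnR
      linarith
    · have h7 : Real.log s ≤ Real.log n := Real.log_le_log hs hsn
      linarith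
  have h7 : ε * s ≤ e / 4 * n := mul_le_mul hε1 hsn hs.le (by positivity)
  have h8 : |y - x * n| ≤ e / 2 * n := by
    calc |y - x * n| = |(y - s) + (s - x * n)| := by congr 1; ring
      _ ≤ |y - s| + |s - x * n| := abs_add_le _ _
      _ ≤ e / 2 * n := by linarith
  rw [Real.dist_eq]
  have h9 : y / n - x = (y - x * n) / n := by field_simp
  rw [h9, abs_div, abs_of_pos hn0, div_lt_iff₀ hn0]
  have : e / 2 * n < e * n := mul_lt_mul_of_pos_right (by linarith) hn0
  linarith

lemma two_pow_exp (n : ℕ) : (2 : ℝ) ^ n = Real.exp (Real.log 2 * n) := by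
  rw [mul_comm, Real.exp_nat_mul, Real.exp_log (by norm_num)]

/-- the lower bound of the exponent -/
theorem mx_ge (h0 : 0 < δ) (h1 : δ < 1 / 2) {x : ℝ} (hx : 0 ≤ x) {ε : ℝ} (hε : 0 < ε) :
    ∀ᶠ n : ℕ in atTop, Real.exp ((Real.log 2 - Real.binEntropy δ - ε) * n) ≤ mx δ x n := by
  have hc := cE_pos h0 h1
  obtain ⟨e, he⟩ : ∃ e : ℝ, e = min (1 / 2) (cE δ) := ⟨_, rfl⟩
  have he0 : 0 < e := by rw [he]; exact lt_min (by norm_num) hc
  have he1 : e ≤ 1 / 2 := by rw [he]; exact min_le_left _ _
  have he2 : e ≤ cE δ := by rw [he]; exact min_le_right _ _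
  obtain ⟨s, hs, hse⟩ := exists_W 1 one_pos
  filter_upwards [state h0 h1 he0, ev_lin 0 (2 / s) hε, eventually_ge_atTop 1] with n a1 a2 a3
  have hn0 : (0 : ℝ) ≤ n := Nat.cast_nonneg n
  have hV := Vol_pos n (tn δ n)
  obtain ⟨h3, -⟩ := a1 s hs (by
    rw [hse]
    exact Real.one_le_exp (mul_nonneg (by linarith) hn0))
  rw [act_eq hse] at h3
  have h4 := (abs_le.1 h3).1
  have h5 : s / 2 ≤ Vol n (tn δ n) / 2 ^ n * mean n (tn δ n) (1 / Vol n (tn δ n)) := by
    have : e * s ≤ 1 / 2 * s := mul_le_mul_of_nonneg_right he1 hs.le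
    linarith
  have h6 : mean n (tn δ n) (1 / Vol n (tn δ n)) ≤ mx δ x n := by
    unfold mx
    refine mean_mono (by positivity) ?_
    exact div_le_div_of_nonneg_right (Real.one_le_exp (by positivity)) hV.le
  have h7 := vol_le h0 h1 a3
  have h8 : s / 2 * (2 ^ n / Vol n (tn δ n)) ≤ mx δ x n := by
    refine le_trans ?_ h6
    have := mul_le_mul_of_nonneg_right h5 (show (0 : ℝ) ≤ 2 ^ n / Vol n (tn δ n) by positivity)
    refine this.trans (le_of_eq ?_)
    field_simp
  refine le_trans ?_ h8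
  have h9 : Real.exp ((Real.log 2 - Real.binEntropy δ) * n) ≤ 2 ^ n / Vol n (tn δ n) := by
    rw [le_div_iff₀ hV, two_pow_exp]
    calc Real.exp ((Real.log 2 - Real.binEntropy δ) * n) * Vol n (tn δ n)
        ≤ Real.exp ((Real.log 2 - Real.binEntropy δ) * n) * Real.exp (Real.binEntropy δ * n) :=
          mul_le_mul_of_nonneg_left h7 (Real.exp_pos _).le
      _ = Real.exp (Real.log 2 * n) := by rw [← Real.exp_add]; congr 1; ring
  have h10 : Real.exp (-ε * n) ≤ s / 2 := by
    rw [zero_mul, zero_add, div_le_iff₀ hs] at a2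
    rw [neg_mul, Real.exp_neg, inv_le_iff_one_le_mul₀ (Real.exp_pos _)]
    linarith
  calc Real.exp ((Real.log 2 - Real.binEntropy δ - ε) * n)
      = Real.exp (-ε * n) * Real.exp ((Real.log 2 - Real.binEntropy δ) * n) := by
        rw [← Real.exp_add]; congr 1; ring
    _ ≤ s / 2 * (2 ^ n / Vol n (tn δ n)) :=
        mul_le_mul h10 h9 (Real.exp_pos _).le (by positivity)

/-- the upper bound of the exponent -/
theorem mx_le (h0 : 0 < δ) (h1 : δ < 1 / 2) {x : ℝ} (hx : 0 ≤ x) {ε : ℝ} (hε : 0 < ε) :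
    ∀ᶠ n : ℕ in atTop, mx δ x n ≤
      Real.exp ((Real.log 2 - Real.binEntropy δ + max 0 (x - gE δ) + ε) * n) := by
  set m := max 0 (x - gE δ) with hm
  have hm0 : 0 ≤ m := le_max_left _ _
  have hm1 : x - gE δ ≤ m := le_max_right _ _
  filter_upwards [ev_pressure h0 h1 (half_pos (half_pos hε)), ev_vol_ge h0 h1 (half_pos (half_pos hε)),
    ev_lin (2 * (x + 1)) 6 (show 0 < ε / 8 by positivity), eventually_ge_atTop 1] with n a1 a2 a3 a4
  have hn0 : (0 : ℝ) < n := by exact_mod_cast a4
  have hnR : (1 : ℝ) ≤ n := by exact_mod_cast a4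
  set V := Vol n (tn δ n) with hVdef
  have hV : 0 < V := Vol_pos n (tn δ n)
  obtain ⟨s, hs, hse⟩ := exists_W (Real.exp 1 * Real.exp (x * n)) (by positivity)
  have h2 := a1 s hs
  rw [act_eq hse, hse] at h2
  set lam := Real.exp (x * n) / V with hlam
  have hlam0 : 0 < lam := by positivity
  have e1 : Real.exp 1 * Real.exp (x * n) / V = Real.exp 1 * lam := by rw [hlam]; ring
  rw [e1] at h2
  have h3 := conv (B := ball n (2 * tn δ n)) hlam0 (show 0 < Real.exp 1 * lam by positivity) univ
  have h4 : Real.log (Real.exp 1 * lam / lam) = 1 := by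
    rw [mul_div_assoc, div_self hlam0.ne', mul_one, Real.log_exp]
  have h5 : 0 ≤ Real.log (Z (ball n (2 * tn δ n)) lam univ) := log_Z_nonneg hlam0.le _
  rw [h4, one_mul] at h3
  have h6 : mx δ x n ≤ Real.log (ZZ n (tn δ n) (Real.exp 1 * lam)) := by
    unfold mx mean ZZ
    linarith
  have h7 : s ≤ 1 + x * n := by
    by_contra hcon
    push Not at hcon
    have h8 : 1 < s := lt_of_le_of_lt (by have : 0 ≤ x * n := by positivity
                                          linarith) hcon
    have h9 : Real.exp (1 + x * n) < s * Real.exp s := by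
      calc Real.exp (1 + x * n) < Real.exp s := Real.exp_lt_exp.2 hcon
        _ = 1 * Real.exp s := (one_mul _).symm
        _ ≤ s * Real.exp s := mul_le_mul_of_nonneg_right h8.le (Real.exp_pos s).le
    rw [hse, Real.exp_add] at h9
    exact lt_irrefl _ h9
  set P := 2 * (x + 1) * (n : ℝ) + 6 with hP
  have hP0 : 0 < P := by rw [hP]; positivity
  have hPe : P ^ 2 ≤ Real.exp (ε / 4 * n) := by
    have e : Real.exp (ε / 4 * n) = Real.exp (ε / 8 * n) ^ 2 := by
      rw [← Real.exp_nat_mul]; congr 1; push_cast; ring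
    rw [e]
    exact pow_le_pow_left₀ hP0.le a3 2
  have hem : 1 ≤ Real.exp ((m + ε / 4) * n) := Real.one_le_exp (by positivity)
  have h8 : s + s ^ 2 / 2 + Real.exp (-(gE δ - ε / 2 / 2) * n) * (Real.exp 1 * Real.exp (x * n)) ≤
      P ^ 2 * Real.exp ((m + ε / 4) * n) := by
    have b1 : Real.exp (-(gE δ - ε / 2 / 2) * n) * (Real.exp 1 * Real.exp (x * n)) ≤
        3 * Real.exp ((m + ε / 4) * n) := by
      have c1 : Real.exp (-(gE δ - ε / 2 / 2) * n) * Real.exp (x * n) ≤
          Real.exp ((m + ε / 4) * n) := by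
        rw [← Real.exp_add]
        apply Real.exp_le_exp.2
        have := mul_le_mul_of_nonneg_right hm1 hn0.le
        linarith
      have c2 : Real.exp 1 ≤ 3 := by
        have := Real.exp_one_lt_d9
        linarith
      calc Real.exp (-(gE δ - ε / 2 / 2) * n) * (Real.exp 1 * Real.exp (x * n))
          = Real.exp 1 * (Real.exp (-(gE δ - ε / 2 / 2) * n) * Real.exp (x * n)) := by ring
        _ ≤ 3 * Real.exp ((m + ε / 4) * n) := mul_le_mul c2 c1 (by positivity) (by norm_num)
    have b2 : s + s ^ 2 / 2 + 3 ≤ P ^ 2 := by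
      have c1 : s ≤ P := by rw [hP]; nlinarith
      have c2 : 6 ≤ P := by rw [hP]; have : 0 ≤ 2 * (x + 1) * (n : ℝ) := by positivity
                            linarith
      have c3 : s ^ 2 ≤ P ^ 2 := pow_le_pow_left₀ hs.le c1 2
      nlinarith
    have b3 : s + s ^ 2 / 2 ≤ (s + s ^ 2 / 2) * Real.exp ((m + ε / 4) * n) :=
      le_mul_of_one_le_right (by positivity) hem
    have b4 := mul_le_mul_of_nonneg_right b2 (Real.exp_pos ((m + ε / 4) * n)).le
    linarith
  have h9 : V / 2 ^ n * mx δ x n ≤ P ^ 2 * Real.exp ((m + ε / 4) * n) := by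
    refine le_trans ?_ (h2.trans h8)
    exact mul_le_mul_of_nonneg_left h6 (by positivity)
  have h10 : mx δ x n ≤ 2 ^ n / V * (P ^ 2 * Real.exp ((m + ε / 4) * n)) := by
    have := mul_le_mul_of_nonneg_left h9 (show (0 : ℝ) ≤ 2 ^ n / V by positivity)
    refine le_trans (le_of_eq ?_) this
    field_simp
  have h11 : 2 ^ n / V ≤ Real.exp ((Real.log 2 - Real.binEntropy δ + ε / 4) * n) := by
    rw [div_le_iff₀ hV, two_pow_exp]
    calc Real.exp (Real.log 2 * n)
        = Real.exp ((Real.log 2 - Real.binEntropy δ + ε / 4) * n) *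
          Real.exp ((Real.binEntropy δ - ε / 2 / 2) * n) := by
          rw [← Real.exp_add]; congr 1; ring
      _ ≤ Real.exp ((Real.log 2 - Real.binEntropy δ + ε / 4) * n) * V :=
          mul_le_mul_of_nonneg_left (a2.trans (choose_le_Vol _ _)) (Real.exp_pos _).le
  calc mx δ x n ≤ 2 ^ n / V * (P ^ 2 * Real.exp ((m + ε / 4) * n)) := h10
    _ ≤ Real.exp ((Real.log 2 - Real.binEntropy δ + ε / 4) * n) *
        (Real.exp (ε / 4 * n) * Real.exp ((m + ε / 4) * n)) := by gcongr
    _ ≤ Real.exp ((Real.log 2 - Real.binEntropy δ + m + ε) * n) := by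
        rw [← Real.exp_add, ← Real.exp_add]
        apply Real.exp_le_exp.2
        have : 0 ≤ ε / 4 * n := by positivity
        linarith

/-! ### Large activities -/

section

variable {V : Type*} [DecidableEq V] [Fintype V]

lemma M_le {B : V → Finset V} {lam : ℝ} (hl : 0 < lam) {A : ℕ}
    (hA : ∀ I ∈ fam B (univ : Finset V), I.card ≤ A) :
    M B lam univ / Z B lam univ ≤ A := by
  rw [div_le_iff₀ (Z_pos hl.le _)]
  unfold M Z
  rw [Finset.mul_sum]
  refine Finset.sum_le_sum fun I hI => ?_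
  have : (I.card : ℝ) ≤ A := by exact_mod_cast hA I hI
  exact mul_le_mul_of_nonneg_right this (by positivity)

lemma card_fam_le {B : V → Finset V} {A : ℕ} (hA : ∀ I ∈ fam B (univ : Finset V), I.card ≤ A) :
    (fam B (univ : Finset V)).card ≤ (Fintype.card V + 1) ^ A := by
  have h1 : fam B (univ : Finset V) ⊆ (range (A + 1)).biUnion fun k => powersetCard k univ := by
    intro I hI
    rw [mem_biUnion]
    refine ⟨I.card, ?_, ?_⟩
    · rw [mem_range]
      have := hA I hI
      omega
    · rw [mem_powersetCard]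
      exact ⟨Finset.subset_univ _, rfl⟩
  refine (Finset.card_le_card h1).trans (Finset.card_biUnion_le.trans ?_)
  rw [add_pow]
  refine Finset.sum_le_sum fun k hk => ?_
  rw [card_powersetCard, Finset.card_univ, one_pow, mul_one]
  have hk' : k ≤ A := by
    rw [mem_range] at hk
    omega
  calc (Fintype.card V).choose k ≤ Fintype.card V ^ k := Nat.choose_le_pow _ _
    _ ≤ Fintype.card V ^ k * A.choose k := Nat.le_mul_of_pos_right _ (Nat.choose_pos hk')

lemma M_ge_max {B : V → Finset V} {lam : ℝ} (hl : 1 < lam) {A : ℕ}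
    (hA : ∀ I ∈ fam B (univ : Finset V), I.card ≤ A)
    (hA2 : ∃ I ∈ fam B (univ : Finset V), I.card = A) :
    A * (Real.log lam - Real.log (Fintype.card V + 1)) ≤
      Real.log lam * (M B lam univ / Z B lam univ) := by
  have hl0 : 0 < lam := by linarith
  have h1 := conv (B := B) hl0 one_pos (univ : Finset V)
  rw [one_div, Real.log_inv] at h1
  obtain ⟨I, hI, hIA⟩ := hA2
  have h2 : A * Real.log lam ≤ Real.log (Z B lam univ) := by
    have h3 : lam ^ A ≤ Z B lam univ := by
      rw [← hIA]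
      unfold Z
      exact Finset.single_le_sum (f := fun I => lam ^ I.card) (fun _ _ => by positivity) hI
    have h4 := Real.log_le_log (by positivity) h3
    rwa [Real.log_pow] at h4
  have h3 : Real.log (Z B 1 univ) ≤ A * Real.log (Fintype.card V + 1) := by
    have h4 : Z B 1 univ ≤ ((Fintype.card V : ℝ) + 1) ^ A := by
      unfold Z
      simp only [one_pow, Finset.sum_const, nsmul_eq_mul, mul_one]
      exact_mod_cast card_fam_le hA
    have h5 := Real.log_le_log (Z_pos zero_le_one _) h4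
    rwa [Real.log_pow] at h5
  linarith

end

/-- at large activities the mean size is nearly the maximum -/
theorem mean_large {A : ℕ} (hn : 2 ≤ n) (hA : ∀ I ∈ fam (ball n (2 * t)) univ, I.card ≤ A)
    (hA2 : ∃ I ∈ fam (ball n (2 * t)) univ, I.card = A) {lam : ℝ} (hl : 4 ^ n ≤ lam) :
    (A : ℝ) / 4 ≤ mean n t lam ∧ mean n t lam ≤ A := by
  have hn2 : (2 : ℝ) ≤ n := by exact_mod_cast hn
  have h4n : (4 : ℝ) ≤ 4 ^ n := by
    calc (4 : ℝ) = 4 ^ 1 := by norm_num
      _ ≤ 4 ^ n := pow_le_pow_right₀ (by norm_num) (by omega)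
  have hl1 : 1 < lam := by linarith
  have hl0 : 0 < lam := by linarith
  refine ⟨?_, M_le hl0 hA⟩
  have h1 := M_ge_max hl1 hA hA2
  rw [card_words] at h1
  change A * (Real.log lam - Real.log (2 ^ n + 1)) ≤ Real.log lam * mean n t lam at h1
  have hl2 : 0 < Real.log 2 := Real.log_pos (by norm_num)
  have h2 : 2 * n * Real.log 2 ≤ Real.log lam := by
    have h3 := Real.log_le_log (by positivity) hl
    rw [Real.log_pow] at h3
    have : Real.log 4 = 2 * Real.log 2 := by
      have : (4 : ℝ) = 2 ^ 2 := by norm_num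
      rw [this, Real.log_pow]
      push_cast
      ring
    rw [this] at h3
    linarith
  have h3 : Real.log (2 ^ n + 1) ≤ (n + 1) * Real.log 2 := by
    have h4 : (2 : ℝ) ^ n + 1 ≤ 2 ^ (n + 1) := by
      have : (1 : ℝ) ≤ 2 ^ n := one_le_pow₀ (by norm_num)
      rw [pow_succ]
      linarith
    have h5 := Real.log_le_log (by positivity) h4
    rw [Real.log_pow] at h5
    push_cast at h5
    exact h5
  have hL : 0 < Real.log lam := Real.log_pos hl1
  have h4 : Real.log (2 ^ n + 1) ≤ 3 / 4 * Real.log lam := by nlinarith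
  have h5 : Real.log lam * ((A : ℝ) / 4) ≤ Real.log lam * mean n t lam := by
    refine le_trans ?_ h1
    have hA0 : (0 : ℝ) ≤ A := Nat.cast_nonneg A
    nlinarith
  exact le_of_mul_le_mul_left h5 hL

end Run7.h933.EOS
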