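import Pool.Agent.Run7.h933.EOS.Ent

/-!
# The equation of state
-/

set_option autoImplicit false

open Finset Filter Topology

namespace Run7.h933.EOS

variable {δ : ℝ}

lemma log2_lt : Real.log 2 < 1 := by
  have := Real.log_two_lt_d9
  linarith

lemma gE_pos (h0 : 0 < δ) (h1 : δ < 1 / 2) : 0 < gE δ := by
  have := Pool.Agent.Y570.LS.gain_pos h0 h1
  unfold gE
  linarith

lemma gE_le (h0 : 0 < δ) (h1 : δ < 1 / 2) : gE δ ≤ Real.binEntropy δ := by
  have h2 : Real.binEntropy (1 / 2 - √(δ * (1 - δ))) ≤ Real.log 2 := Real.binEntropy_le_log_two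
  have h3 : 0 ≤ Real.binEntropy δ := Real.binEntropy_nonneg h0.le (by linarith)
  unfold gE
  linarith

lemma lE_le (h0 : 0 < δ) (h1 : δ < 1 / 2) : lE δ ≤ Real.binEntropy δ := by
  have hl2 : 0 < Real.log 2 := Real.log_pos (by norm_num)
  have h2 : 0 ≤ Real.binEntropy (δ / (2 * (1 - δ))) := by
    refine Real.binEntropy_nonneg (div_nonneg h0.le (by linarith)) ?_
    rw [div_le_one (by linarith)]
    linarith
  have h3 : 0 ≤ δ * Real.log 2 + (1 - δ) * Real.binEntropy (δ / (2 * (1 - δ))) :=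
    add_nonneg (by positivity) (mul_nonneg (by linarith) h2)
  unfold lE
  linarith

lemma lE_pos (h0 : 0 < δ) (h1 : δ < 1 / 2) : 0 < lE δ := by
  have hd : 0 < 1 - δ := by linarith
  have hp0 : 0 < δ / (2 * (1 - δ)) := by positivity
  have hp1 : δ / (2 * (1 - δ)) < 1 / 2 := by
    rw [div_lt_iff₀ (by positivity)]
    linarith
  have h := Real.strictConcave_binEntropy.2 (x := (2⁻¹ : ℝ)) (y := δ / (2 * (1 - δ)))
    ⟨by norm_num, by norm_num⟩ ⟨hp0.le, by linarith⟩ (by
      intro h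
      rw [← h] at hp1
      norm_num at hp1) h0 hd (by ring)
  simp only [smul_eq_mul] at h
  have e : δ * 2⁻¹ + (1 - δ) * (δ / (2 * (1 - δ))) = δ := by
    field_simp
    ring
  rw [e, Real.binEntropy_two_inv] at h
  unfold lE
  linarith

lemma bin_lt_one (δ : ℝ) : Real.binEntropy δ < 1 :=
  lt_of_le_of_lt Real.binEntropy_le_log_two log2_lt

/-- the exponent of the range -/
noncomputable def cE (δ : ℝ) : ℝ := min (lE δ) (gE δ)

lemma cE_pos (h0 : 0 < δ) (h1 : δ < 1 / 2) : 0 < cE δ := lt_min (lE_pos h0 h1) (gE_pos h0 h1)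

lemma ev_small (C : ℝ) {a η : ℝ} (ha : 0 < a) (hη : 0 < η) :
    ∀ᶠ n : ℕ in atTop, C * Real.exp (-a * n) ≤ η := by
  filter_upwards [ev_lin 0 (C / η) ha] with n hn
  rw [zero_mul, zero_add, div_le_iff₀ hη] at hn
  have e : Real.exp (a * n) * Real.exp (-a * n) = 1 := by
    rw [← Real.exp_add]
    simp
  calc C * Real.exp (-a * n) ≤ Real.exp (a * n) * η * Real.exp (-a * n) :=
        mul_le_mul_of_nonneg_right hn (Real.exp_pos _).le
    _ = η * (Real.exp (a * n) * Real.exp (-a * n)) := by ring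
    _ = η := by rw [e, mul_one]

/-- the upper bound of the pressure, at every activity -/
theorem ev_pressure (h0 : 0 < δ) (h1 : δ < 1 / 2) {ε : ℝ} (hε : 0 < ε) :
    ∀ᶠ n : ℕ in atTop, ∀ s : ℝ, 0 < s →
      Vol n (tn δ n) / 2 ^ n * Real.log (ZZ n (tn δ n) (act n (tn δ n) s)) ≤
        s + s ^ 2 / 2 + Real.exp (-(gE δ - ε) * n) * (s * Real.exp s) := by
  filter_upwards [ev_eig h0 h1 (half_pos hε), ev_vol_ge h0 h1 (half_pos hε),
    ev_lin 0 2 (half_pos hε)] with n a1 a2 a3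
  intro s hs
  have hV := Vol_pos n (tn δ n)
  have h2 := pressure_le (n := n) (t := tn δ n) (Real.exp_pos _).le hs a1
  refine h2.trans ?_
  have h3 : 1 / Vol n (tn δ n) ≤ Real.exp (-(Real.binEntropy δ - ε / 2) * n) := by
    rw [neg_mul, Real.exp_neg, one_div]
    exact inv_anti₀ (Real.exp_pos _) (a2.trans (choose_le_Vol _ _))
  have h4 : Real.exp (-(Real.binEntropy δ - ε / 2) * n) ≤ Real.exp (-(gE δ - ε / 2) * n) := by
    apply Real.exp_le_exp.2
    have := gE_le h0 h1
    exact mul_le_mul_of_nonneg_right (by linarith) (Nat.cast_nonneg n)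
  have h5 : Real.exp (-(gE δ - ε / 2) * n) + 1 / Vol n (tn δ n) ≤ Real.exp (-(gE δ - ε) * n) := by
    have e : Real.exp (-(gE δ - ε) * n) = Real.exp (ε / 2 * n) * Real.exp (-(gE δ - ε / 2) * n) := by
      rw [← Real.exp_add]; congr 1; ring
    rw [e]
    rw [zero_mul, zero_add] at a3
    have := mul_le_mul_of_nonneg_right a3 (Real.exp_pos (-(gE δ - ε / 2) * n)).le
    linarith
  have h6 : 0 ≤ s * Real.exp s := by positivity
  have := mul_le_mul_of_nonneg_right h5 h6
  linarith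

/-- the local constant -/
theorem ev_K (h0 : 0 < δ) (h1 : δ < 1 / 2) {ε : ℝ} (hε : 0 < ε) :
    ∀ᶠ n : ℕ in atTop, ∃ x K : ℝ, 0 < x ∧ x ≤ 1 ∧ KK n (tn δ n) x ≤ K ∧ 0 ≤ K ∧
      K / Vol n (tn δ n) ≤ Real.exp (-(lE δ - ε) * n) := by
  filter_upwards [ev_vol_ge h0 h1 (half_pos hε), ev_lin 0 2 (half_pos hε), eventually_ge_atTop 1]
    with n a1 a2 a3
  obtain ⟨x, hx0, hx1, hx2⟩ := KK_le h0 h1.le (tn_le h0 a3)
  refine ⟨x, _, hx0, hx1, hx2, by positivity, ?_⟩
  have hV := Vol_pos n (tn δ n)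
  rw [div_le_iff₀ hV]
  have h2 : Real.exp ((Real.binEntropy δ - ε / 2) * n) ≤ Vol n (tn δ n) :=
    a1.trans (choose_le_Vol _ _)
  rw [zero_mul, zero_add] at a2
  calc 2 * Real.exp (n * (δ * Real.log 2 + (1 - δ) * Real.binEntropy (δ / (2 * (1 - δ)))))
      ≤ Real.exp (ε / 2 * n) *
        Real.exp (n * (δ * Real.log 2 + (1 - δ) * Real.binEntropy (δ / (2 * (1 - δ))))) :=
        mul_le_mul_of_nonneg_right a2 (Real.exp_pos _).le
    _ = Real.exp (-(lE δ - ε) * n) * Real.exp ((Real.binEntropy δ - ε / 2) * n) := by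
        rw [← Real.exp_add, ← Real.exp_add]
        congr 1
        unfold lE
        ring
    _ ≤ Real.exp (-(lE δ - ε) * n) * Vol n (tn δ n) :=
        mul_le_mul_of_nonneg_left h2 (Real.exp_pos _).le

/-- **The equation of state.** -/
theorem state (h0 : 0 < δ) (h1 : δ < 1 / 2) {ε : ℝ} (hε : 0 < ε) :
    ∀ᶠ n : ℕ in atTop, ∀ s : ℝ, 0 < s → s * Real.exp s ≤ Real.exp ((cE δ - ε) * n) →
      |Vol n (tn δ n) / 2 ^ n * mean n (tn δ n) (act n (tn δ n) s) - s| ≤ ε * s ∧
      |Vol n (tn δ n) / 2 ^ n * Real.log (ZZ n (tn δ n) (act n (tn δ n) s)) - (s + s ^ 2 / 2)| ≤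
        ε * (s + s ^ 2 / 2) := by
  have hX0 := cE_pos h0 h1
  set X := cE δ with hX
  have hXl : X ≤ lE δ := min_le_left _ _
  have hXg : X ≤ gE δ := min_le_right _ _
  have hX1 : X ≤ 1 := by
    have := lE_le h0 h1
    have := bin_lt_one δ
    linarith
  obtain ⟨e, he⟩ : ∃ e : ℝ, e = min ε (min (X / 2) (1 / 4)) := ⟨_, rfl⟩
  have he0 : 0 < e := by rw [he]; positivity
  have he1 : e ≤ ε := by rw [he]; exact min_le_left _ _
  have he2 : e ≤ X / 2 := by rw [he]; exact (min_le_right _ _).trans (min_le_left _ _)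
  have he3 : e ≤ 1 / 4 := by rw [he]; exact (min_le_right _ _).trans (min_le_right _ _)
  filter_upwards [ev_pressure h0 h1 (show (0 : ℝ) < e / 8 by positivity),
    ev_K h0 h1 (show (0 : ℝ) < e / 2 by positivity),
    ev_small (Real.exp 1) (show (0 : ℝ) < 3 * e / 8 by positivity)
      (show (0 : ℝ) < (e / 4) ^ 2 / 8 by positivity),
    ev_small 1 (show (0 : ℝ) < e / 2 by positivity)
      (show (0 : ℝ) < (e / 4) ^ 2 / 2 by positivity), eventually_ge_atTop 2]
    with n a1 a2 a3 a4 a5 s hs hse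
  have hn1 : 1 ≤ n := by omega
  obtain ⟨x, K, hx0, hx1, hx2, hK0, hK⟩ := a2
  have hV := Vol_pos n (tn δ n)
  have hn0 : (0 : ℝ) ≤ n := Nat.cast_nonneg n
  have hDn : 2 * tn δ n ≤ n := by
    have := tn_half h0 h1 hn1
    omega
  have key := asm_gen (ε := e) (X := X) he0 hX0 hX1 he2 he3 a5
    (κ := Real.exp (-(gE δ - e / 8) * n)) (Real.exp_pos _).le (by
      refine le_trans ?_ a3
      calc Real.exp (-(gE δ - e / 8) * n) * Real.exp 1 * Real.exp ((X - e / 2) * n)
          = Real.exp 1 * Real.exp ((-(gE δ - e / 8) + (X - e / 2)) * n) := by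
            rw [add_mul, Real.exp_add]; ring
        _ ≤ Real.exp 1 * Real.exp (-(3 * e / 8) * n) := by
            refine mul_le_mul_of_nonneg_left (Real.exp_le_exp.2 ?_) (Real.exp_pos _).le
            exact mul_le_mul_of_nonneg_right (by linarith) hn0)
    (y := fun s => Vol n (tn δ n) / 2 ^ n * mean n (tn δ n) (act n (tn δ n) s))
    (p := fun s => Vol n (tn δ n) / 2 ^ n * Real.log (ZZ n (tn δ n) (act n (tn δ n) s)))
    (fun w hw => mul_pos (by positivity) (mean_pos (act_pos hw)))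
    (fun w hw => mul_nonneg (by positivity) (Real.log_nonneg (ZZ_ge_one (act_pos hw).le)))
    (fun w hw hwe => by
      have h2 : K / Vol n (tn δ n) * (w * Real.exp w) ≤ (e / 4) ^ 2 / 2 := by
        refine le_trans ?_ a4
        rw [one_mul]
        calc K / Vol n (tn δ n) * (w * Real.exp w)
            ≤ Real.exp (-(lE δ - e / 2) * n) * Real.exp ((X - e) * n) :=
              mul_le_mul hK hwe (by positivity) (Real.exp_pos _).le
          _ = Real.exp ((-(lE δ - e / 2) + (X - e)) * n) := by rw [← Real.exp_add, add_mul]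
          _ ≤ Real.exp (-(e / 2) * n) := by
              apply Real.exp_le_exp.2
              exact mul_le_mul_of_nonneg_right (by linarith) hn0
      have h3 : (e / 4) ^ 2 / 2 ≤ 1 := by nlinarith
      refine le_trans ?_ (mean_ge hDn hx0 hx1 hx2 hw (h2.trans h3))
      exact mul_le_mul_of_nonneg_right (by linarith) hw.le)
    (fun w hw => a1 w hw)
    (fun a b ha hab => conv_act ha (lt_of_lt_of_le ha hab))
    hs (hse.trans (Real.exp_le_exp.2 ?_))
  · obtain ⟨k1, k2⟩ := key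
    exact ⟨k1.trans (mul_le_mul_of_nonneg_right he1 hs.le),
      k2.trans (mul_le_mul_of_nonneg_right he1 (by positivity))⟩
  · exact mul_le_mul_of_nonneg_right (by linarith) hn0

end Run7.h933.EOS
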