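import Pool.Agent.Run7.h933.EOS.State

/-!
# Ordered configurations
-/

set_option autoImplicit false

open Finset

namespace Run7.h933.EOS

variable {V : Type*} [DecidableEq V] [Fintype V]

/-- ordered `k`-tuples with mutually far entries -/
noncomputable def tup (B : V → Finset V) (k : ℕ) : Finset (Fin k → V) := by
  classical
  exact univ.filter fun x => ∀ i j, i ≠ j → x j ∉ B (x i)

lemma mem_tup {B : V → Finset V} {k : ℕ} {x : Fin k → V} :
    x ∈ tup B k ↔ ∀ i j, i ≠ j → x j ∉ B (x i) := by
  classical
  unfold tup
  rw [mem_filter]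
  simp

lemma tup_inj {B : V → Finset V} (hB : Nb B) {k : ℕ} {x : Fin k → V} (h : x ∈ tup B k) :
    Function.Injective x := by
  rw [mem_tup] at h
  intro i j hij
  by_contra hne
  apply h i j hne
  rw [← hij]
  exact hB.refl _

/-- the number of tuples is `k!` times the number of independent sets with `k` points -/
theorem card_tup {B : V → Finset V} (hB : Nb B) (k : ℕ) :
    (tup B k).card = k.factorial * ((fam B univ).filter fun I => I.card = k).card := by
  classical
  have hmap : ∀ x ∈ tup B k, univ.image x ∈ (fam B univ).filter fun I => I.card = k := by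
    intro x hx
    have hinj := tup_inj hB hx
    rw [mem_filter, mem_fam, Finset.card_image_of_injective _ hinj, Finset.card_univ,
      Fintype.card_fin]
    refine ⟨⟨Finset.subset_univ _, ?_⟩, rfl⟩
    intro a ha b hb hab
    obtain ⟨i, -, rfl⟩ := mem_image.1 ha
    obtain ⟨j, -, rfl⟩ := mem_image.1 hb
    exact mem_tup.1 hx i j (fun h => hab (by rw [h]))
  rw [Finset.card_eq_sum_card_fiberwise hmap, mul_comm, ← smul_eq_mul, ← Finset.sum_const]
  refine Finset.sum_congr rfl fun I hI => ?_
  rw [mem_filter, mem_fam] at hI
  obtain ⟨⟨-, hI1⟩, hI2⟩ := hI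
  -- the tuples with image `I` are the bijections from `Fin k` to `I`
  have hc : Fintype.card (Fin k ≃ I) = k.factorial := by
    rw [Fintype.card_equiv (Fintype.equivOfCardEq (by simp [hI2])), Fintype.card_fin]
  rw [← hc, ← Finset.card_univ]
  symm
  refine Finset.card_bij (fun e _ => fun i => (e i : V)) ?_ ?_ ?_
  · intro e _
    rw [mem_filter, mem_tup]
    refine ⟨?_, ?_⟩
    · intro i j hij
      refine hI1 _ (e i).2 _ (e j).2 ?_
      intro h
      exact hij (e.injective (Subtype.ext h))
    · ext v
      rw [mem_image]
      constructor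
      · rintro ⟨i, -, rfl⟩
        exact (e i).2
      · intro hv
        exact ⟨e.symm ⟨v, hv⟩, mem_univ _, by simp⟩
  · intro e _ f _ h
    ext i
    exact congrFun h i
  · intro x hx
    rw [mem_filter] at hx
    obtain ⟨hx1, hx2⟩ := hx
    have hinj := tup_inj hB hx1
    have hmem : ∀ i, x i ∈ I := by
      intro i
      rw [← hx2]
      exact mem_image_of_mem x (mem_univ i)
    have hbij : Function.Bijective (fun i : Fin k => (⟨x i, hmem i⟩ : I)) := by
      constructor
      · intro i j h
        exact hinj (congrArg Subtype.val h)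
      · rintro ⟨v, hv⟩
        rw [← hx2] at hv
        obtain ⟨i, -, hi⟩ := mem_image.1 hv
        exact ⟨i, Subtype.ext hi⟩
    exact ⟨Equiv.ofBijective _ hbij, mem_univ _, rfl⟩

/-- the probability that `k` independent uniform points are mutually far -/
noncomputable def prob (B : V → Finset V) (k : ℕ) : ℝ :=
  (tup B k).card / (Fintype.card V : ℝ) ^ k

lemma prob_nonneg (B : V → Finset V) (k : ℕ) : 0 ≤ prob B k := by
  unfold prob
  positivity

lemma prob_le_one [Nonempty V] (B : V → Finset V) (k : ℕ) : prob B k ≤ 1 := by
  have hN : (0 : ℝ) < Fintype.card V := by exact_mod_cast Fintype.card_pos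
  unfold prob
  rw [div_le_one (by positivity)]
  have h := Finset.card_le_univ (tup B k)
  rw [Fintype.card_fun, Fintype.card_fin] at h
  exact_mod_cast h

lemma prob_anti [Nonempty V] (B : V → Finset V) : Antitone (prob B) := by
  have hN : (0 : ℝ) < Fintype.card V := by exact_mod_cast Fintype.card_pos
  refine antitone_nat_of_succ_le fun k => ?_
  have h1 : (tup B (k + 1)).card ≤ Fintype.card V * (tup B k).card := by
    rw [← Finset.card_univ, ← Finset.card_product]
    refine Finset.card_le_card_of_injOn (fun x => (x 0, fun i => x i.succ)) ?_ ?_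
    · intro x hx
      rw [Finset.mem_coe, mem_tup] at hx
      rw [Finset.mem_coe, mem_product, mem_tup]
      refine ⟨mem_univ _, fun i j hij => hx _ _ ?_⟩
      intro h
      exact hij (Fin.succ_injective _ h)
    · intro x _ y _ h
      have h' : (x 0, fun i : Fin k => x i.succ) = (y 0, fun i : Fin k => y i.succ) := h
      rw [Prod.mk.injEq] at h'
      funext i
      refine Fin.cases h'.1 (fun j => ?_) i
      exact congrFun h'.2 j
  unfold prob
  rw [div_le_div_iff₀ (by positivity) (by positivity), pow_succ]
  have h2 : ((tup B (k + 1)).card : ℝ) ≤ Fintype.card V * (tup B k).card := by exact_mod_cast h1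
  have h3 := mul_le_mul_of_nonneg_right h2 (show (0 : ℝ) ≤ (Fintype.card V : ℝ) ^ k by positivity)
  linarith

/-- the partition function in terms of the probabilities -/
theorem Z_series [Nonempty V] {B : V → Finset V} (hB : Nb B) (lam : ℝ) :
    ∑' k : ℕ, (lam * Fintype.card V) ^ k / k.factorial * prob B k = Z B lam univ := by
  have hN : (0 : ℝ) < Fintype.card V := by exact_mod_cast Fintype.card_pos
  have h1 : ∀ k : ℕ, (lam * Fintype.card V) ^ k / k.factorial * prob B k =
      lam ^ k * (((fam B univ).filter fun I => I.card = k).card : ℝ) := by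
    intro k
    unfold prob
    rw [card_tup hB]
    have : (k.factorial : ℝ) ≠ 0 := by exact_mod_cast k.factorial_ne_zero
    push_cast
    rw [mul_pow]
    field_simp
  simp only [h1]
  rw [tsum_eq_sum (s := range (Fintype.card V + 1))]
  · unfold Z
    have hmap : ∀ I ∈ fam B (univ : Finset V), I.card ∈ range (Fintype.card V + 1) := by
      intro I _
      rw [mem_range]
      have := Finset.card_le_univ I
      omega
    rw [← Finset.sum_fiberwise_of_maps_to hmap]
    refine Finset.sum_congr rfl fun k _ => ?_
    have : ∀ I ∈ (fam B (univ : Finset V)).filter (fun I => I.card = k), lam ^ I.card = lam ^ k := by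
      intro I hI
      rw [(mem_filter.1 hI).2]
    rw [Finset.sum_congr rfl this, Finset.sum_const, nsmul_eq_mul, mul_comm]
  · intro k hk
    rw [mem_range] at hk
    have : (fam B (univ : Finset V)).filter (fun I => I.card = k) = ∅ := by
      rw [Finset.filter_eq_empty_iff]
      intro I _ h
      have := Finset.card_le_univ I
      omega
    rw [this]
    simp

end Run7.h933.EOS
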