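import Pool.Agent.Run7.h933.EOS.Gas

/-!
# The upper bound of the pressure
-/

set_option autoImplicit false

open Finset

namespace Run7.h933.EOS

variable {V : Type*} [DecidableEq V] {B : V → Finset V} {lam : ℝ}

theorem exists_W (L : ℝ) (hL : 0 < L) : ∃ s : ℝ, 0 < s ∧ s * Real.exp s = L := by
  have hc : ContinuousOn (fun s : ℝ => s * Real.exp s) (Set.Icc 0 L) := by fun_prop
  have h1 : L ∈ Set.Icc ((0 : ℝ) * Real.exp 0) (L * Real.exp L) := by
    constructor
    · simp [hL.le]
    · have := Real.one_le_exp hL.le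
      nlinarith
  obtain ⟨s, hs, he⟩ := intermediate_value_Icc hL.le hc h1
  refine ⟨s, ?_, he⟩
  rcases hs.1.lt_or_eq with h2 | h2
  · exact h2
  · exfalso
    rw [← h2] at he
    simp at he
    linarith

/-- the supersaturation gives linear upper bounds of the pressure -/
theorem upper_lin (hB : Nb B) (hl : 0 < lam) {a K : ℝ} (ha : 0 < a) (hK : 0 ≤ K)
    (h : ∀ U : Finset V, U.Nonempty → ∃ v ∈ U, 1 + a * (U.card - K) ≤ ((U ∩ B v).card : ℝ)) :
    ∀ (m : ℕ) (U : Finset V), U.card = m → ∀ w : ℝ, 0 ≤ w →
      Real.log (Z B lam U) ≤ lam * K + w ^ 2 / (2 * a) + lam * Real.exp (-w) * (U.card - K) := by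
  intro m
  induction m using Nat.strong_induction_on with
  | _ m ih =>
  intro U hU w' hw'
  have hexp : Real.exp (-w') ≤ 1 := by rw [Real.exp_le_one_iff]; linarith
  have hexp0 := Real.exp_pos (-w')
  by_cases hmK : (U.card : ℝ) ≤ K
  · have h1 := log_Z_le hB hl.le U
    have h2 : 0 ≤ w' ^ 2 / (2 * a) := by positivity
    have h3 : lam * (U.card - K) ≤ lam * Real.exp (-w') * (U.card - K) := by
      have : (U.card - K) ≤ Real.exp (-w') * (U.card - K) := by nlinarith
      nlinarith [mul_le_mul_of_nonneg_left this hl.le]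
    linarith
  push Not at hmK
  have hne : U.Nonempty := by
    rw [← Finset.card_pos]
    have : (0 : ℝ) < U.card := lt_of_le_of_lt hK hmK
    exact_mod_cast this
  obtain ⟨v, hv, hg⟩ := h U hne
  -- the optimal parameter
  obtain ⟨w, hw, hwe⟩ := exists_W (lam * (a * (U.card - K)))
    (mul_pos hl (mul_pos ha (by linarith)))
  set h0 := lam * Real.exp (-w) with hh0
  have hh0pos : 0 < h0 := by positivity
  have hgw : h0 * (a * (U.card - K)) = w := by
    have : h0 * (a * (U.card - K)) = (lam * (a * (U.card - K))) * Real.exp (-w) := by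
      rw [hh0]; ring
    rw [this, ← hwe, mul_assoc, ← Real.exp_add]
    simp
  set L := lam * K + w ^ 2 / (2 * a) + h0 * (U.card - K) with hL
  -- the bound at the optimal parameter
  have key : Real.log (Z B lam U) ≤ L := by
    have c1 : (U.erase v).card < m := by
      rw [← hU]; exact Finset.card_erase_lt_of_mem hv
    have hvin : v ∈ U ∩ B v := mem_inter.2 ⟨hv, hB.refl v⟩
    have c2' : (U \ B v).card + (U ∩ B v).card = U.card := Finset.card_sdiff_add_card_inter U (B v)
    have c2 : (U \ B v).card < m := by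
      have : 0 < (U ∩ B v).card := Finset.card_pos.2 ⟨v, hvin⟩
      omega
    have i1 := ih _ c1 (U.erase v) rfl w hw.le
    have i2 := ih _ c2 (U \ B v) rfl w hw.le
    have d1 : ((U.erase v).card : ℝ) = U.card - 1 := by
      rw [Finset.card_erase_of_mem hv, Nat.cast_sub (Finset.card_pos.2 hne)]
      simp
    have d2 : ((U \ B v).card : ℝ) = U.card - (U ∩ B v).card := by
      have : ((U \ B v).card : ℝ) + (U ∩ B v).card = U.card := by exact_mod_cast c2'
      linarith
    rw [d1, ← hh0] at i1
    rw [d2, ← hh0] at i2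
    have j1 : Real.log (Z B lam (U.erase v)) ≤ L - h0 := by rw [hL]; linarith
    have j2 : Real.log (Z B lam (U \ B v)) ≤ L - h0 - w := by
      have : h0 * (1 + a * (U.card - K)) ≤ h0 * ((U ∩ B v).card : ℝ) :=
        mul_le_mul_of_nonneg_left hg hh0pos.le
      rw [hL]
      linarith
    rw [Real.log_le_iff_le_exp (Z_pos hl.le _)] at j1 j2 ⊢
    rw [Z_rec hB hv]
    calc Z B lam (U.erase v) + lam * Z B lam (U \ B v)
        ≤ Real.exp (L - h0) + lam * Real.exp (L - h0 - w) :=
          add_le_add j1 (mul_le_mul_of_nonneg_left j2 hl.le)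
      _ = Real.exp (L - h0) * (h0 + 1) := by
          have : Real.exp (L - h0 - w) = Real.exp (L - h0) * Real.exp (-w) := by
            rw [← Real.exp_add]; congr 1
          rw [this, hh0]; ring
      _ ≤ Real.exp (L - h0) * Real.exp h0 :=
          mul_le_mul_of_nonneg_left (Real.add_one_le_exp h0) (Real.exp_pos _).le
      _ = Real.exp L := by rw [← Real.exp_add]; congr 1; ring
  refine key.trans ?_
  -- optimality
  have o1 : w * (1 + (w - w')) ≤ w * Real.exp (w - w') :=
    mul_le_mul_of_nonneg_left (by linarith [Real.add_one_le_exp (w - w')]) hw.le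
  have o2 : lam * Real.exp (-w') * (a * (U.card - K)) = w * Real.exp (w - w') := by
    have : lam * Real.exp (-w') * (a * (U.card - K)) =
      (lam * (a * (U.card - K))) * Real.exp (-w') := by ring
    rw [this, ← hwe, mul_assoc, ← Real.exp_add]
    congr 2
  have o3 : w ^ 2 / 2 + w ≤ w' ^ 2 / 2 + w * Real.exp (w - w') := by nlinarith [sq_nonneg (w' - w)]
  have o4 : L = lam * K + (w ^ 2 / 2 + w) / a := by
    rw [hL]
    have : h0 * (U.card - K) = w / a := by
      rw [eq_div_iff ha.ne']; linarith
    rw [this]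
    field_simp
    ring
  have o5 : lam * K + w' ^ 2 / (2 * a) + lam * Real.exp (-w') * (U.card - K) =
      lam * K + (w' ^ 2 / 2 + w * Real.exp (w - w')) / a := by
    have : lam * Real.exp (-w') * (U.card - K) = w * Real.exp (w - w') / a := by
      rw [eq_div_iff ha.ne', ← o2]; ring
    rw [this]
    field_simp
    ring
  rw [o4, o5]
  have := div_le_div_of_nonneg_right o3 ha.le
  linarith

/-- **The upper bound.** If `deg ≥ (D / N) |U| - ρ D` on average on every set `U` of points (closed
neighbourhoods of size `D`, `N` points), then at the activity `s e ^ s / D` the logarithm of the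
partition function is at most `(N / D) (s + s ^ 2 / 2 + (ρ + 1 / D) s e ^ s)`. -/
theorem upper [Fintype V] (hB : Nb B) {D N ρ s : ℝ} (hD : 0 < D) (hN : N = Fintype.card V)
    (hN0 : 0 < N) (hρ : 0 ≤ ρ) (hs : 0 < s)
    (h : ∀ U : Finset V, D / N * U.card ^ 2 - ρ * D * U.card ≤ ∑ u ∈ U, ((U ∩ B u).card : ℝ)) :
    D / N * Real.log (Z B (s * Real.exp s / D) univ) ≤
      s + s ^ 2 / 2 + (ρ + 1 / D) * (s * Real.exp s) := by
  have hl : 0 < s * Real.exp s / D := by positivity
  have ha : 0 < D / N := by positivity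
  have h1 := upper_lin (B := B) hB hl (a := D / N) (K := N * (ρ + 1 / D)) ha (by positivity) (by
    intro U hU
    have hU0 : (0 : ℝ) < U.card := by exact_mod_cast Finset.card_pos.2 hU
    by_contra hcon
    push Not at hcon
    have h2 := Finset.sum_lt_sum_of_nonempty hU hcon
    rw [Finset.sum_const, nsmul_eq_mul] at h2
    have h3 := h U
    have e1 : 1 + D / N * ((U.card : ℝ) - N * (ρ + 1 / D)) = D / N * U.card - ρ * D := by
      field_simp
      ring
    rw [e1] at h2
    nlinarith) _ univ rfl s hs.le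
  rw [Finset.card_univ, ← hN] at h1
  have h2 : D / N * Real.log (Z B (s * Real.exp s / D) univ) ≤ D / N *
      (s * Real.exp s / D * (N * (ρ + 1 / D)) + s ^ 2 / (2 * (D / N)) +
        s * Real.exp s / D * Real.exp (-s) * (N - N * (ρ + 1 / D))) :=
    mul_le_mul_of_nonneg_left h1 ha.le
  refine h2.trans ?_
  have e2 : s * Real.exp s / D * Real.exp (-s) = s / D := by
    have : s * Real.exp s / D * Real.exp (-s) = s / D * (Real.exp s * Real.exp (-s)) := by ring
    rw [this, ← Real.exp_add]
    simp
  rw [e2]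
  have e3 : D / N * (s * Real.exp s / D * (N * (ρ + 1 / D)) + s ^ 2 / (2 * (D / N)) +
      s / D * (N - N * (ρ + 1 / D))) =
      s + s ^ 2 / 2 + (ρ + 1 / D) * (s * Real.exp s) - s * (ρ + 1 / D) := by
    field_simp
    ring
  rw [e3]
  have : 0 ≤ s * (ρ + 1 / D) := by positivity
  linarith

end Run7.h933.EOS
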